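import Pool.Agent.C29.Defs
import Pool.Agent.Lib.H58FracMaxGeo

/-!
C29: the convex body and the two direction lemmas.
-/

set_option autoImplicit false

open Finset
open Pool.Agent.Lib.H58FracMax

namespace Pool.Agent.C29

variable {m : ℕ}

lemma ell_add (τ : ℝ) (x y : RPt m) : ell τ (x + y) = ell τ x + ell τ y := by
  simp only [ell, Pi.add_apply]; ring

lemma ell_smul (τ a : ℝ) (x : RPt m) : ell τ (a • x) = a * ell τ x := by
  simp only [ell, Pi.smul_apply, smul_eq_mul]; ring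

lemma ell_neg (τ : ℝ) (x : RPt m) : ell τ (-x) = -ell τ x := by
  simp only [ell, Pi.neg_apply]; ring

lemma kap_nonneg (e : ℕ) : 0 ≤ kap e := by unfold kap; positivity

lemma InK.nonneg {r : ℝ} {x : RPt m} (h : InK r x) : 0 ≤ r := (abs_nonneg _).trans (h.1 0)

/-- joint linearity of the constraints -/
lemma InK.comb {r r' a a' : ℝ} {x x' : RPt m} (h : InK r x) (h' : InK r' x') (ha : 0 ≤ a)
    (ha' : 0 ≤ a') : InK (a * r + a' * r') (a • x + a' • x') := by
  obtain ⟨h1, h2, h3⟩ := h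
  obtain ⟨h1', h2', h3'⟩ := h'
  refine ⟨fun l => ?_, fun τ hτ => ?_, fun c e hc => ?_⟩
  · have := abs_le.1 (h1 l)
    have := abs_le.1 (h1' l)
    simp only [Pi.add_apply, Pi.smul_apply, smul_eq_mul]
    rw [abs_le]
    constructor <;> nlinarith
  · have := abs_le.1 (h2 τ hτ)
    have := abs_le.1 (h2' τ hτ)
    rw [ell_add, ell_smul, ell_smul, abs_le]
    constructor <;> nlinarith
  · obtain ⟨h4, h5⟩ := h3 c e hc
    obtain ⟨h4', h5'⟩ := h3' c e hc
    simp only [Pi.add_apply, Pi.smul_apply, smul_eq_mul, ell_add, ell_smul]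
    constructor
    · have e1 := mul_le_mul_of_nonneg_left h4 ha
      have e2 := mul_le_mul_of_nonneg_left h4' ha'
      calc a * x 2 + a' * x' 2 ≤ a * (kap e * (r - ell (c / e) x))
            + a' * (kap e * (r' - ell (c / e) x')) := add_le_add e1 e2
        _ = _ := by ring
    · have e1 := mul_le_mul_of_nonneg_left h5 ha
      have e2 := mul_le_mul_of_nonneg_left h5' ha'
      calc -(a * x 2 + a' * x' 2) = a * (-x 2) + a' * (-x' 2) := by ring
        _ ≤ a * (kap e * (r + ell (c / e) x)) + a' * (kap e * (r' + ell (c / e) x')) :=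
            add_le_add e1 e2
        _ = _ := by ring

lemma InK_zero {r : ℝ} (hr : 0 ≤ r) : InK r (0 : RPt m) := by
  have h0 : ∀ τ : ℝ, ell τ (0 : RPt m) = 0 := by intro τ; simp [ell]
  refine ⟨fun l => by simpa using hr, fun τ _ => by rw [h0]; simpa using hr, fun c e _ => ?_⟩
  rw [h0]
  have := mul_nonneg (kap_nonneg e) hr
  constructor <;> simpa using this

lemma InK.mono {r r' : ℝ} {x : RPt m} (h : InK r x) (hr : r ≤ r') : InK r' x := by
  have := h.comb (InK_zero (m := m) (sub_nonneg.2 hr)) (zero_le_one) (zero_le_one)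
  simpa using this

lemma InK.smul {r a : ℝ} {x : RPt m} (h : InK r x) (ha : 0 ≤ a) : InK (a * r) (a • x) := by
  have := h.comb (InK_zero (m := m) le_rfl) ha (zero_le_one)
  simpa using this

lemma InK.neg {r : ℝ} {x : RPt m} (h : InK r x) : InK r (-x) := by
  obtain ⟨h1, h2, h3⟩ := h
  refine ⟨fun l => by simpa using h1 l, fun τ hτ => by rw [ell_neg, abs_neg]; exact h2 τ hτ,
    fun c e hc => ?_⟩
  obtain ⟨h4, h5⟩ := h3 c e hc
  rw [ell_neg]
  simp only [Pi.neg_apply, neg_neg, sub_neg_eq_add]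
  exact ⟨h5, by rw [← sub_eq_add_neg]; exact h4⟩

lemma convex_KK : Convex ℝ (KK m) := by
  intro x hx y hy a b ha hb hab
  have := InK.comb (show InK 1 x from hx) (show InK 1 y from hy) ha hb
  rw [mul_one, mul_one, hab] at this
  exact this

lemma isClosed_KK : IsClosed (KK m) := by
  have hc : ∀ τ : ℝ, Continuous (ell τ : RPt m → ℝ) := by
    intro τ; unfold ell; fun_prop
  have h1 : KK m = {x : RPt m | ∀ l, |x l| ≤ 1} ∩
      ({x : RPt m | ∀ τ ∈ Set.Icc (0 : ℝ) 1, |ell τ x| ≤ 1} ∩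
      {x : RPt m | ∀ c e : ℕ, IsCut c e →
        x 2 ≤ kap e * (1 - ell ((c : ℝ) / e) x) ∧ -x 2 ≤ kap e * (1 + ell ((c : ℝ) / e) x)}) := by
    ext x; rfl
  rw [h1]
  refine IsClosed.inter ?_ (IsClosed.inter ?_ ?_)
  · simp only [Set.ofPred_forall]
    exact isClosed_iInter fun l => isClosed_le (by fun_prop) continuous_const
  · simp only [Set.ofPred_forall]
    exact isClosed_iInter fun τ => isClosed_iInter fun _ =>
      isClosed_le ((hc τ).abs) continuous_const
  · simp only [Set.ofPred_forall]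
    refine isClosed_iInter fun c => isClosed_iInter fun e => isClosed_iInter fun _ => ?_
    have hcc := hc ((c : ℝ) / e)
    refine IsClosed.and (isClosed_le (by fun_prop) (by fun_prop))
      (isClosed_le (by fun_prop) (by fun_prop))

lemma abs_ell_le {τ a : ℝ} (hτ : τ ∈ Set.Icc (0 : ℝ) 1) {x : RPt m} (hx : ∀ l, |x l| ≤ a) :
    |ell τ x| ≤ 3 * a := by
  obtain ⟨h0, h1⟩ := hτ
  have ha : 0 ≤ a := (abs_nonneg _).trans (hx 0)
  have e0 := abs_le.1 (hx 0)
  have e1 := abs_le.1 (hx 1)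
  have h2 : 0 ≤ 1 - τ ^ 2 := by nlinarith
  have h3 : 1 - τ ^ 2 ≤ 1 := by nlinarith
  unfold ell
  rw [abs_le]
  constructor
  · nlinarith [mul_nonneg h2 (by linarith : 0 ≤ x 0 + a), mul_nonneg h0 (by linarith : 0 ≤ x 1 + a)]
  · nlinarith [mul_nonneg h2 (by linarith : 0 ≤ a - x 0), mul_nonneg h0 (by linarith : 0 ≤ a - x 1)]

lemma IsCut.two_le {c e : ℕ} (h : IsCut c e) : 2 ≤ e := by
  obtain ⟨h1, h2, h3⟩ := h
  have : 1 ≤ c := h1.pos
  omega

lemma IsCut.mem {c e : ℕ} (h : IsCut c e) : ((c : ℝ) / e) ∈ Set.Icc (0 : ℝ) 1 := by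
  have h2 := h.two_le
  have h3 : (c : ℝ) ≤ e := by exact_mod_cast h.2.2.le
  have he : (0 : ℝ) < e := by positivity
  exact ⟨by positivity, by rw [div_le_one he]; exact h3⟩

lemma one_le_kap {e : ℕ} (h : 2 ≤ e) : 1 ≤ kap e := by
  have : (1 : ℝ) ≤ e := by exact_mod_cast (by omega : 1 ≤ e)
  exact one_le_pow₀ this

lemma InK_inner {a : ℝ} {x : RPt m} (hx : ∀ l, |x l| ≤ a) : InK (8 * a) x := by
  have ha : 0 ≤ a := (abs_nonneg _).trans (hx 0)
  refine ⟨fun l => (hx l).trans (by linarith), fun τ hτ => (abs_ell_le hτ hx).trans (by linarith),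
    fun c e hc => ?_⟩
  have h1 := abs_le.1 (abs_ell_le hc.mem hx)
  have h2 := one_le_kap hc.two_le
  have h3 := abs_le.1 (hx 2)
  constructor
  · nlinarith [mul_nonneg (by linarith : 0 ≤ kap e - 1)
      (by linarith : 0 ≤ 8 * a - ell ((c : ℝ) / e) x)]
  · nlinarith [mul_nonneg (by linarith : 0 ≤ kap e - 1)
      (by linarith : 0 ≤ 8 * a + ell ((c : ℝ) / e) x)]

lemma body_KK : Body (KK m) (1 / 8) 1 where
  conv := convex_KK
  rho := by norm_num
  inner := by
    intro y hy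
    have := InK_inner hy
    norm_num at this
    exact this
  outer := fun y hy i => hy.1 i

lemma isClosed_InK (x : RPt m) : IsClosed {r : ℝ | InK r x} := by
  have h1 : {r : ℝ | InK r x} = {r : ℝ | ∀ l, |x l| ≤ r} ∩
      ({r : ℝ | ∀ τ ∈ Set.Icc (0 : ℝ) 1, |ell τ x| ≤ r} ∩
      {r : ℝ | ∀ c e : ℕ, IsCut c e →
        x 2 ≤ kap e * (r - ell ((c : ℝ) / e) x) ∧ -x 2 ≤ kap e * (r + ell ((c : ℝ) / e) x)}) := by
    ext r; rfl
  rw [h1]
  refine IsClosed.inter ?_ (IsClosed.inter ?_ ?_)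
  · simp only [Set.ofPred_forall]
    exact isClosed_iInter fun l => isClosed_le continuous_const continuous_id
  · simp only [Set.ofPred_forall]
    exact isClosed_iInter fun τ => isClosed_iInter fun _ => isClosed_le continuous_const
      continuous_id
  · simp only [Set.ofPred_forall]
    refine isClosed_iInter fun c => isClosed_iInter fun e => isClosed_iInter fun _ => ?_
    exact IsClosed.and (isClosed_le (by fun_prop) (by fun_prop))
      (isClosed_le (by fun_prop) (by fun_prop))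

/-- value of the functional at a point of direction `t / b` -/
lemma ell_eq {b t τ : ℝ} (hb : 0 < b) {x : RPt m} (h0 : x 0 = b) (h1 : x 1 = t) :
    ell τ x = b * (1 + (t / b) ^ 2) - b * (t / b - τ) ^ 2 := by
  unfold ell
  rw [h0, h1]
  field_simp
  ring

lemma val1 : ((1 : Fin (m + 3)) : ℕ) = 1 := Nat.mod_eq_of_lt (show 1 < m + 3 by omega)

lemma val2 : ((2 : Fin (m + 3)) : ℕ) = 2 := Nat.mod_eq_of_lt (show 2 < m + 3 by omega)

lemma ne02 : (0 : Fin (m + 3)) ≠ 2 := by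
  intro h
  have := congrArg Fin.val h
  rw [val2] at this
  exact absurd this (by norm_num)

lemma ne12 : (1 : Fin (m + 3)) ≠ 2 := by
  intro h
  have := congrArg Fin.val h
  rw [val1, val2] at this
  exact absurd this (by norm_num)

lemma ne01 : (0 : Fin (m + 3)) ≠ 1 := by
  intro h
  have := congrArg Fin.val h
  rw [val1] at this
  exact absurd this (by norm_num)

lemma eV_same (l : Fin (m + 3)) : (eV l : Pt m) l = 1 := by simp [eV]

lemma eV_ne {l k : Fin (m + 3)} (h : k ≠ l) : (eV l : Pt m) k = 0 := by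
  simp [eV, h]

lemma toR_add_e2_two (p : Pt m) : toR (p + eV 2) 2 = (p 2 : ℝ) + 1 := by
  simp [toR, eV_same]

lemma toR_add_e2_ne (p : Pt m) {l : Fin (m + 3)} (h : l ≠ 2) : toR (p + eV 2) l = (p l : ℝ) := by
  simp [toR, eV_ne h]

/-- **(A)** the cut directions -/
lemma cut_dir {b t : ℕ} (hb : Odd b) (ht : Odd t) (htb : t ≤ b) {p : Pt m}
    (h0 : p 0 = b + 1) (h1 : p 1 = t) (h2 : 0 ≤ p 2) (hp : ∀ l, |p l| ≤ b + 1) :
    ∃ r : ℝ, 0 ≤ r ∧ r ≤ 16 * b ∧ InK r (toR p) ∧ ¬ InK r (toR (p + eV 2)) := by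
  have hb1 : (1 : ℝ) ≤ b := by exact_mod_cast hb.pos
  have hpR : ∀ l, |toR p l| ≤ (b : ℝ) + 1 := by
    intro l
    have := hp l
    have h3 : ((|p l| : ℤ) : ℝ) ≤ ((b + 1 : ℤ) : ℝ) := by exact_mod_cast this
    simpa [toR] using h3
  have hcut : IsCut t (b + 1) := ⟨ht, hb.add_odd odd_one, by omega⟩
  set S : Set ℝ := {r : ℝ | InK r (toR p)} with hS
  have hne : (8 * ((b : ℝ) + 1)) ∈ S := InK_inner hpR
  have hbdd : BddBelow S := ⟨0, fun r hr => InK.nonneg hr⟩
  have hmem : sInf S ∈ S := (isClosed_InK (toR p)).csInf_mem ⟨_, hne⟩ hbdd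
  set r₀ := sInf S with hr₀
  refine ⟨r₀, InK.nonneg hmem, (csInf_le hbdd hne).trans (by linarith), hmem, ?_⟩
  intro hcon
  -- coordinates
  have hB : (0 : ℝ) < (b : ℝ) + 1 := by positivity
  have z0 : toR (p + eV 2) 0 = (b : ℝ) + 1 := by
    rw [toR_add_e2_ne p ne02, h0]; push_cast; ring
  have z1 : toR (p + eV 2) 1 = (t : ℝ) := by
    rw [toR_add_e2_ne p ne12, h1]; push_cast; ring
  have z2 : toR (p + eV 2) 2 = (p 2 : ℝ) + 1 := toR_add_e2_two p
  set n : ℝ := ((b : ℝ) + 1) * (1 + ((t : ℝ) / ((b : ℝ) + 1)) ^ 2) with hn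
  have hp2 : (0 : ℝ) ≤ (p 2 : ℝ) := by exact_mod_cast h2
  have hr0n : n < r₀ := by
    have h3 := (hcon.2.2 t (b + 1) hcut).1
    rw [z2, ell_eq hB z0 z1] at h3
    have h4 : ((b + 1 : ℕ) : ℝ) = (b : ℝ) + 1 := by push_cast; ring
    rw [h4, sub_self, zero_pow two_ne_zero, mul_zero, sub_zero] at h3
    by_contra h5
    push Not at h5
    have h6 : kap (b + 1) * (r₀ - n) ≤ 0 :=
      mul_nonpos_of_nonneg_of_nonpos (kap_nonneg _) (by linarith)
    linarith
  -- the point with vanishing third coordinate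
  set p0 : RPt m := Function.update (toR p) 2 0 with hp0
  have w0 : p0 0 = (b : ℝ) + 1 := by
    rw [hp0, Function.update_of_ne ne02]; simp [toR, h0]
  have w1 : p0 1 = (t : ℝ) := by
    rw [hp0, Function.update_of_ne ne12]; simp [toR, h1]
  have w2 : p0 2 = 0 := by rw [hp0, Function.update_self]
  have htb' : (t : ℝ) ≤ b := by exact_mod_cast htb
  have ht0 : (0 : ℝ) ≤ t := by positivity
  have hnB : (b : ℝ) + 1 ≤ n := by
    rw [hn]
    have : 0 ≤ ((t : ℝ) / ((b : ℝ) + 1)) ^ 2 := sq_nonneg _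
    nlinarith
  have hell : ∀ τ ∈ Set.Icc (0 : ℝ) 1, 0 ≤ ell τ p0 ∧ ell τ p0 ≤ n := by
    rintro τ ⟨hτ0, hτ1⟩
    constructor
    · unfold ell
      rw [w0, w1]
      have h3 : 0 ≤ 1 - τ ^ 2 := by nlinarith
      positivity
    · rw [ell_eq hB w0 w1]
      have : 0 ≤ ((b : ℝ) + 1) * ((t : ℝ) / ((b : ℝ) + 1) - τ) ^ 2 := by positivity
      linarith
  have hK0 : InK n p0 := by
    refine ⟨fun l => ?_, fun τ hτ => ?_, fun c e hc => ?_⟩
    · by_cases hl : l = 2
      · rw [hl, w2, abs_zero]; linarith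
      · rw [hp0, Function.update_of_ne hl]
        exact (hpR l).trans hnB
    · obtain ⟨h3, h4⟩ := hell τ hτ
      rw [abs_le]
      exact ⟨by linarith, h4⟩
    · obtain ⟨h3, h4⟩ := hell _ hc.mem
      rw [w2]
      constructor
      · exact mul_nonneg (kap_nonneg e) (by linarith)
      · rw [neg_zero]
        exact mul_nonneg (kap_nonneg e) (by linarith)
  have hq : (0 : ℝ) < (p 2 : ℝ) + 1 := by linarith
  have hcomb := hcon.comb hK0 (a := (p 2 : ℝ) / ((p 2 : ℝ) + 1)) (a' := 1 / ((p 2 : ℝ) + 1))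
    (by positivity) (by positivity)
  have heq : ((p 2 : ℝ) / ((p 2 : ℝ) + 1)) • toR (p + eV 2) + (1 / ((p 2 : ℝ) + 1)) • p0
      = toR p := by
    funext l
    simp only [Pi.add_apply, Pi.smul_apply, smul_eq_mul]
    by_cases hl : l = 2
    · rw [hl, w2, z2]
      have : toR p 2 = (p 2 : ℝ) := rfl
      rw [this]
      field_simp
      ring
    · rw [toR_add_e2_ne p hl, hp0, Function.update_of_ne hl]
      have : toR p l = (p l : ℝ) := rfl
      rw [this]
      field_simp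
  rw [heq] at hcomb
  have hle : r₀ ≤ (p 2 : ℝ) / ((p 2 : ℝ) + 1) * r₀ + 1 / ((p 2 : ℝ) + 1) * n :=
    csInf_le hbdd hcomb
  have hlt : (p 2 : ℝ) / ((p 2 : ℝ) + 1) * r₀ + 1 / ((p 2 : ℝ) + 1) * n < r₀ := by
    have h3 : (p 2 : ℝ) / ((p 2 : ℝ) + 1) * r₀ + 1 / ((p 2 : ℝ) + 1) * n
        = r₀ - (r₀ - n) / ((p 2 : ℝ) + 1) := by
      field_simp
      ring
    rw [h3]
    have : 0 < (r₀ - n) / ((p 2 : ℝ) + 1) := div_pos (by linarith) hq
    linarith
  linarith

/-- **(B)** the good directions -/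
lemma good_dir {b t : ℕ} (hb : 1 ≤ b) (hg : Good b t) {p : Pt m}
    (h0 : p 0 = b) (h1 : p 1 = t) (h2 : 0 ≤ p 2) (h2' : p 2 + 1 ≤ b) {r : ℝ}
    (h : InK r (toR p)) : InK r (toR (p + eV 2)) := by
  have hB : (0 : ℝ) < (b : ℝ) := by exact_mod_cast hb
  have c0 : toR p 0 = (b : ℝ) := by simp [toR, h0]
  have c1 : toR p 1 = (t : ℝ) := by simp [toR, h1]
  have z0 : toR (p + eV 2) 0 = (b : ℝ) := by
    rw [toR_add_e2_ne p ne02, h0]; push_cast; ring
  have z1 : toR (p + eV 2) 1 = (t : ℝ) := by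
    rw [toR_add_e2_ne p ne12, h1]; push_cast; ring
  have z2 : toR (p + eV 2) 2 = (p 2 : ℝ) + 1 := toR_add_e2_two p
  have hp2 : (0 : ℝ) ≤ (p 2 : ℝ) := by exact_mod_cast h2
  have hp2' : (p 2 : ℝ) + 1 ≤ b := by exact_mod_cast h2'
  have hellz : ∀ τ, ell τ (toR (p + eV 2)) = ell τ (toR p) := by
    intro τ
    unfold ell
    rw [z0, z1, c0, c1]
  have htb : (t : ℝ) ≤ b := by exact_mod_cast hg.2.1.le
  have hmem : (t : ℝ) / b ∈ Set.Icc (0 : ℝ) 1 := ⟨by positivity, by rw [div_le_one hB]; exact htb⟩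
  set n : ℝ := (b : ℝ) * (1 + ((t : ℝ) / b) ^ 2) with hn
  have hnr : n ≤ r := by
    have h3 := (abs_le.1 (h.2.1 _ hmem)).2
    rw [ell_eq hB c0 c1, sub_self, zero_pow two_ne_zero, mul_zero, sub_zero] at h3
    exact h3
  have hbn : (b : ℝ) ≤ n := by
    rw [hn]
    have : 0 ≤ ((t : ℝ) / b) ^ 2 := sq_nonneg _
    nlinarith
  refine ⟨fun l => ?_, fun τ hτ => by rw [hellz]; exact h.2.1 τ hτ, fun c e hc => ?_⟩
  · by_cases hl : l = 2
    · rw [hl, z2, abs_of_nonneg (by linarith)]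
      linarith
    · rw [toR_add_e2_ne p hl]
      exact h.1 l
  · rw [hellz, z2]
    have he2 := hc.two_le
    have he : (0 : ℝ) < e := by positivity
    have hk := kap_nonneg e
    constructor
    · have h3 := hg.2.2 c e hc
      have h3' : (b : ℝ) ≤ |(t : ℝ) * e - b * c| * (e : ℝ) ^ 7 := by exact_mod_cast h3
      have h4 : (b : ℝ) ^ 2 ≤ ((t : ℝ) * e - b * c) ^ 2 * (e : ℝ) ^ 14 := by
        have h5 := pow_le_pow_left₀ hB.le h3' 2
        rw [mul_pow, sq_abs, ← pow_mul] at h5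
        exact h5
      have h6 : (b : ℝ) ≤ kap e * (n - ell ((c : ℝ) / e) (toR p)) := by
        rw [ell_eq hB c0 c1, ← hn]
        have h7 : kap e * (n - (n - (b : ℝ) * ((t : ℝ) / b - (c : ℝ) / e) ^ 2))
            = (((t : ℝ) * e - b * c) ^ 2 * (e : ℝ) ^ 14) / b := by
          unfold kap
          field_simp
          ring
        rw [h7, le_div_iff₀ hB]
        nlinarith
      have h8 : kap e * (n - ell ((c : ℝ) / e) (toR p))
          ≤ kap e * (r - ell ((c : ℝ) / e) (toR p)) :=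
        mul_le_mul_of_nonneg_left (by linarith) hk
      linarith
    · have h3 := (abs_le.1 (h.2.1 _ hc.mem)).1
      have : 0 ≤ kap e * (r + ell ((c : ℝ) / e) (toR p)) := mul_nonneg hk (by linarith)
      linarith

end Pool.Agent.C29
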