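import Pool.Agent.C29.Lower

/-!
C29: the upper bound for the maximal function at the neighbouring points.
-/

set_option autoImplicit false

open Finset
open Pool.Agent.Lib.H58FracMax

namespace Pool.Agent.C29

variable {m : ℕ}

/-- the number of dipole positions in a body -/
lemma card_dips_le {s n : ℕ} (hs : 1 ≤ s) (z : Pt m) {r : ℝ} (hr : 0 ≤ r) (D : Finset (Pt m))
    (hD : ∀ y ∈ D, y ∈ dips m s n ∧ ∀ l, |((y l - z l : ℤ) : ℝ)| ≤ r) :
    (D.card : ℝ) ≤ (2 * r / s + 1) ^ (m + 3) := by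
  classical
  have hsR : (0 : ℝ) < s := by exact_mod_cast hs
  set I : Fin (m + 3) → Finset ℤ := fun l =>
    Finset.Icc ⌈((z l : ℝ) - r) / s⌉ ⌊((z l : ℝ) + r) / s⌋ with hI
  have hsub : D ⊆ (Fintype.piFinset I).image fun k => (s : ℤ) • k := by
    intro y hy
    obtain ⟨h1, h2⟩ := hD y hy
    obtain ⟨k, _, rfl⟩ := mem_dips.1 h1
    rw [Finset.mem_image]
    refine ⟨k, ?_, rfl⟩
    rw [Fintype.mem_piFinset]
    intro l
    have h3 := h2 l
    simp only [Pi.smul_apply, smul_eq_mul] at h3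
    push_cast at h3
    obtain ⟨h4, h5⟩ := abs_le.1 h3
    rw [hI, Finset.mem_Icc, Int.ceil_le, Int.le_floor]
    constructor
    · rw [div_le_iff₀ hsR]; linarith
    · rw [le_div_iff₀ hsR]; linarith
  have hcard : ∀ l, ((I l).card : ℝ) ≤ 2 * r / s + 1 := by
    intro l
    rw [hI, Int.card_Icc]
    have h1 : (0 : ℝ) ≤ 2 * r / s + 1 := by positivity
    have h2 : ((⌊((z l : ℝ) + r) / s⌋ + 1 - ⌈((z l : ℝ) - r) / s⌉ : ℤ) : ℝ) ≤ 2 * r / s + 1 := by
      push_cast
      have h3 := Int.floor_le (((z l : ℝ) + r) / s)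
      have h4 := Int.le_ceil (((z l : ℝ) - r) / s)
      have h5 : ((z l : ℝ) + r) / s - ((z l : ℝ) - r) / s = 2 * r / s := by ring
      linarith
    rcases le_total 0 (⌊((z l : ℝ) + r) / s⌋ + 1 - ⌈((z l : ℝ) - r) / s⌉) with h3 | h3
    · have h4 : (((⌊((z l : ℝ) + r) / s⌋ + 1 - ⌈((z l : ℝ) - r) / s⌉).toNat : ℤ) : ℝ)
          = ((⌊((z l : ℝ) + r) / s⌋ + 1 - ⌈((z l : ℝ) - r) / s⌉ : ℤ) : ℝ) := by
        rw [Int.toNat_of_nonneg h3]
      rw [← h4] at h2
      exact_mod_cast h2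
    · rw [Int.toNat_of_nonpos h3]
      exact_mod_cast h1
  calc (D.card : ℝ) ≤ (((Fintype.piFinset I).image fun k => (s : ℤ) • k).card : ℝ) := by
        exact_mod_cast Finset.card_le_card hsub
    _ ≤ ((Fintype.piFinset I).card : ℝ) := by exact_mod_cast Finset.card_image_le
    _ = ∏ l, ((I l).card : ℝ) := by rw [Fintype.card_piFinset]; push_cast; rfl
    _ ≤ ∏ _l : Fin (m + 3), (2 * r / s + 1) :=
        Finset.prod_le_prod (fun l _ => Nat.cast_nonneg _) (fun l _ => hcard l)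
    _ = (2 * r / s + 1) ^ (m + 3) := by
        rw [Finset.prod_const, Finset.card_univ, Fintype.card_fin]

/-- the number of lattice points of a body -/
lemma le_card_KK (z : Pt m) {r : ℝ} (hr : 0 ≤ r) (B : Finset (Pt m))
    (hB : ∀ y, InK r (toR (y - z)) → y ∈ B) : (r / 8) ^ (m + 3) ≤ (B.card : ℝ) := by
  classical
  set q : ℕ := ⌊r / 8⌋₊ with hq
  have hq1 : (q : ℝ) ≤ r / 8 := Nat.floor_le (by positivity)
  have hq2 : r / 8 < q + 1 := Nat.lt_floor_add_one _
  set P : Finset (Pt m) := Fintype.piFinset fun l => Finset.Icc (z l - q) (z l + q) with hP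
  have hsub : P ⊆ B := by
    intro y hy
    rw [hP, Fintype.mem_piFinset] at hy
    apply hB
    have h1 : ∀ l, |toR (y - z) l| ≤ r / 8 := by
      intro l
      have h2 := hy l
      rw [Finset.mem_Icc] at h2
      have h3 : |(y - z) l| ≤ (q : ℤ) := by
        rw [Pi.sub_apply, abs_le]
        constructor <;> linarith [h2.1, h2.2]
      have h4 : |(((y - z) l : ℤ) : ℝ)| ≤ (q : ℝ) := by exact_mod_cast h3
      exact h4.trans hq1
    have h2 := InK_inner h1
    have h3 : 8 * (r / 8) = r := by ring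
    rwa [h3] at h2
  have hcard : P.card = (2 * q + 1) ^ (m + 3) := by
    rw [hP, Fintype.card_piFinset]
    simp only [Int.card_Icc]
    have h3 : ∀ l : Fin (m + 3), (z l + (q : ℤ) + 1 - (z l - (q : ℤ))).toNat = 2 * q + 1 := by
      intro l
      have : z l + (q : ℤ) + 1 - (z l - (q : ℤ)) = ((2 * q + 1 : ℕ) : ℤ) := by
        push_cast; ring
      rw [this, Int.toNat_natCast]
    simp only [h3, Finset.prod_const, Finset.card_univ, Fintype.card_fin]
  calc (r / 8) ^ (m + 3) ≤ ((2 * q + 1 : ℕ) : ℝ) ^ (m + 3) := by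
        apply pow_le_pow_left₀ (by positivity)
        push_cast
        have : (0 : ℝ) ≤ q := by positivity
        linarith
    _ = ((P.card : ℕ) : ℝ) := by rw [hcard]; push_cast; ring
    _ ≤ (B.card : ℝ) := by exact_mod_cast Finset.card_le_card hsub

/-- **upper bound** -/
theorem upper {m s n : ℕ} (hs : 1 ≤ s) (z k₀ : Pt m) {r : ℝ} (hr : 0 ≤ r) (B : Finset (Pt m))
    (hB : (B : Set (Pt m)) = Pool.Agent.Lib.H58FracMax.LS (KK m)
      (Pool.Agent.Lib.H58FracMax.toR z) r)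
    (hfar : ∀ y ∈ dips m s n, y ≠ k₀ → ∃ l, (s : ℤ) ≤ 2 * |y l - z l|)
    (hk : k₀ ∈ B → k₀ + eV 2 ∈ B) :
    ∑ y ∈ B, tf m s n y ≤ (B.card : ℝ) * (1 + (32 / (s : ℝ)) ^ (m + 3)) := by
  classical
  have hsR : (0 : ℝ) < s := by exact_mod_cast hs
  have hmem : ∀ y, y ∈ B ↔ InK r (toR (y - z)) := by
    intro y
    rw [← mem_LS_KK hr, ← hB, Finset.mem_coe]
  set D := B.filter (fun y => y ∈ dips m s n) with hD
  -- the sum of the positive parts
  have hpos : ∑ y ∈ B, ind (dips m s n) y = (D.card : ℝ) := by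
    have h1 : ∀ y ∈ B, ind (dips m s n) y = if y ∈ dips m s n then (1 : ℝ) else 0 := by
      intro y _
      split_ifs with h
      · exact ind_of_mem h
      · exact ind_of_notMem h
    rw [Finset.sum_congr rfl h1, Finset.sum_boole, hD]
  -- the bound by the erased set
  have hmain : ∑ y ∈ B, tf m s n y ≤ (B.card : ℝ) + ((D.erase k₀).card : ℝ) := by
    have h1 : ∑ y ∈ B, tf m s n y = ∑ y ∈ B, ind (plat m (s * (n + 2))) y
        + ∑ y ∈ B, ind (dips m s n) y - ∑ y ∈ B, ind (dips m s n) (y - eV 2) := by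
      simp only [tf, Finset.sum_sub_distrib, Finset.sum_add_distrib]
    have h2 : ∑ y ∈ B, ind (plat m (s * (n + 2))) y ≤ (B.card : ℝ) := by
      calc ∑ y ∈ B, ind (plat m (s * (n + 2))) y ≤ ∑ _y ∈ B, (1 : ℝ) := by
            apply Finset.sum_le_sum
            intro y _
            by_cases h : y ∈ plat m (s * (n + 2))
            · rw [ind_of_mem h]
            · rw [ind_of_notMem h]; norm_num
        _ = (B.card : ℝ) := by rw [Finset.sum_const, nsmul_eq_mul, mul_one]
    have h3 : ∀ y ∈ B, 0 ≤ ind (dips m s n) (y - eV 2) := fun y _ => ind_nonneg _ _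
    by_cases hk0 : k₀ ∈ D
    · have hk1 : k₀ ∈ B := (Finset.mem_filter.1 hk0).1
      have hk2 : k₀ ∈ dips m s n := (Finset.mem_filter.1 hk0).2
      have h4 : (1 : ℝ) ≤ ∑ y ∈ B, ind (dips m s n) (y - eV 2) := by
        have h5 := Finset.single_le_sum h3 (hk hk1)
        rw [add_sub_cancel_right, ind_of_mem hk2] at h5
        exact h5
      have h5 : ((D.erase k₀).card : ℝ) = (D.card : ℝ) - 1 := by
        rw [Finset.card_erase_of_mem hk0]
        have : 1 ≤ D.card := Finset.card_pos.2 ⟨k₀, hk0⟩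
        rw [Nat.cast_sub this, Nat.cast_one]
      rw [h1, hpos, h5]
      linarith
    · have h4 : (0 : ℝ) ≤ ∑ y ∈ B, ind (dips m s n) (y - eV 2) := Finset.sum_nonneg h3
      rw [Finset.erase_eq_of_notMem hk0, h1, hpos]
      linarith
  -- the bound of the erased set
  have hE : ((D.erase k₀).card : ℝ) ≤ (B.card : ℝ) * (32 / (s : ℝ)) ^ (m + 3) := by
    rcases (D.erase k₀).eq_empty_or_nonempty with h | ⟨y, hy⟩
    · rw [h, Finset.card_empty, Nat.cast_zero]
      positivity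
    · have hin : ∀ y ∈ D.erase k₀, y ∈ dips m s n ∧ ∀ l, |((y l - z l : ℤ) : ℝ)| ≤ r := by
        intro y hy
        have h1 := Finset.mem_filter.1 (Finset.mem_erase.1 hy).2
        refine ⟨h1.2, fun l => ?_⟩
        have h2 := ((hmem y).1 h1.1).1 l
        exact h2
      obtain ⟨hy1, hy2⟩ := hin y hy
      obtain ⟨l, hl⟩ := hfar y hy1 (Finset.mem_erase.1 hy).1
      have hrs : (s : ℝ) ≤ 2 * r := by
        have h1 : (s : ℝ) ≤ 2 * |((y l - z l : ℤ) : ℝ)| := by exact_mod_cast hl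
        linarith [hy2 l]
      have h1 := card_dips_le hs z hr (D.erase k₀) hin
      have h2 := le_card_KK z hr B (fun y h => (hmem y).2 h)
      have h3 : 2 * r / s + 1 ≤ 4 * r / s := by
        have : 1 ≤ 2 * r / s := by rw [le_div_iff₀ hsR]; linarith
        have h4 : 4 * r / s = 2 * r / s + 2 * r / s := by ring
        linarith
      calc ((D.erase k₀).card : ℝ) ≤ (2 * r / s + 1) ^ (m + 3) := h1
        _ ≤ (4 * r / s) ^ (m + 3) := by
            apply pow_le_pow_left₀ (by positivity) h3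
        _ = (r / 8) ^ (m + 3) * (32 / (s : ℝ)) ^ (m + 3) := by
            rw [← mul_pow]; congr 1; field_simp; ring
        _ ≤ (B.card : ℝ) * (32 / (s : ℝ)) ^ (m + 3) := by
            apply mul_le_mul_of_nonneg_right h2 (by positivity)
  calc ∑ y ∈ B, tf m s n y ≤ (B.card : ℝ) + ((D.erase k₀).card : ℝ) := hmain
    _ ≤ (B.card : ℝ) + (B.card : ℝ) * (32 / (s : ℝ)) ^ (m + 3) := by linarith
    _ = (B.card : ℝ) * (1 + (32 / (s : ℝ)) ^ (m + 3)) := by ring

end Pool.Agent.C29
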