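import Pool.Agent.C29.Lower
import Pool.Agent.C29.Upper

/-!
C29: the gradient of the maximal function at the points `y - p`.
-/

set_option autoImplicit false

open Finset
open Pool.Agent.Lib.H58FracMax

namespace Pool.Agent.C29

variable {m : ℕ}

lemma avg_one_eq (u : Pt m → ℝ) (B : Finset (Pt m)) : avg 1 u B = (∑ x ∈ B, u x) / B.card := by
  unfold avg
  rw [Real.rpow_neg_one, div_eq_inv_mul]

/-- **(A) and (B) combined** -/
theorem key {J n b : ℕ} (hb : Odd b) (hbJ : b ≤ 2 * J + 1) {y p : Pt m}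
    (hy : y ∈ dips m (2112 * (2 * J + 1)) n) (hp : p ∈ Off m b) {M : Pt m → ℝ}
    (hM : ∀ z, IsLUB {a | ∃ B ∈ cen (KK m) z,
      a = avg 1 (fun x => |tf m (2112 * (2 * J + 1)) n x|) B} (M z)) :
    1 / (2 * (33 * (b : ℝ)) ^ (m + 3)) ≤ ‖gradE M (y - p)‖ := by
  have hb1 : 1 ≤ b := hb.pos
  set s : ℕ := 2112 * (2 * J + 1) with hs
  have hs1 : 1 ≤ s := by omega
  have habs : (fun x => |tf m s n x|) = tf m s n := by
    funext x
    exact abs_of_nonneg (tf_nonneg hs1 x)
  rw [habs] at hM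
  obtain ⟨h0, ⟨t, ht, h1⟩, h2⟩ := Off_props hp
  have hpabs := Off_abs hp
  obtain ⟨hp2, hp2'⟩ := h2 2 ne02.symm ne12.symm
  -- lower bound
  have hlow : 1 + 1 / (33 * (b : ℝ)) ^ (m + 3) ≤ M (y - p) := by
    obtain ⟨r, hr, B, hB, hpos, hsum⟩ := lower hb (by omega : 17 * b + 3 ≤ s) hy hp
    refine le_trans ?_ ((hM (y - p)).1 ⟨B, ⟨r, hr, hB⟩, rfl⟩)
    rw [avg_one_eq, le_div_iff₀ (by exact_mod_cast hpos), mul_comm]
    exact hsum
  -- upper bound
  have hup : M (y - p + eV 0) ≤ 1 + (32 / (s : ℝ)) ^ (m + 3) := by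
    refine (hM (y - p + eV 0)).2 ?_
    rintro _ ⟨B, ⟨r, hr, hB⟩, rfl⟩
    rw [avg_one_eq]
    have hR : 0 ≤ (32 / (s : ℝ)) ^ (m + 3) := by positivity
    rcases B.eq_empty_or_nonempty with he | hne
    · rw [he, Finset.sum_empty, zero_div]
      linarith
    have hcard : (0 : ℝ) < B.card := by exact_mod_cast hne.card_pos
    rw [div_le_iff₀ hcard, mul_comm]
    refine upper hs1 (y - p + eV 0) y hr B hB ?_ ?_
    · intro y' hy' hne'
      by_contra hcon
      push Not at hcon
      apply hne'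
      refine dips_eq hy hy' fun l => ?_
      have h3 : |y' l - (y - p + eV 0 : Pt m) l| < s - (b + 2) := by
        have h4 := hcon l
        have h5 : ((2 * (b + 2) : ℕ) : ℤ) ≤ s := by
          have : 2 * (b + 2) ≤ s := by omega
          exact_mod_cast this
        push_cast at h5
        linarith
      have h4 := abs_lt.1 h3
      have h5 := abs_le.1 (hpabs l)
      have h6 := abs_le.1 (abs_eV_le (m := m) 0 l)
      simp only [Pi.add_apply, Pi.sub_apply] at h4
      rw [abs_lt]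
      constructor <;> linarith
    · intro hyB
      have hyB' : y ∈ (↑B : Set (Pt m)) := hyB
      rw [hB, mem_LS_KK hr] at hyB'
      have hgoal : y + eV 2 ∈ (↑B : Set (Pt m)) := by
        rw [hB, mem_LS_KK hr]
        have e1 : y + eV 2 - (y - p + eV 0) = (p - eV 0) + eV 2 := by abel
        have e2 : y - (y - p + eV 0) = p - eV 0 := by abel
        rw [e1]
        rw [e2] at hyB'
        refine good_dir hb1 ht ?_ ?_ ?_ ?_ hyB'
        · rw [Pi.sub_apply, h0, eV_same]; ring
        · rw [Pi.sub_apply, h1, eV_ne ne01.symm, sub_zero]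
        · rw [Pi.sub_apply, eV_ne ne02.symm, sub_zero]; exact hp2
        · rw [Pi.sub_apply, eV_ne ne02.symm, sub_zero]; omega
      exact hgoal
  -- the gradient
  have hgrad : |M (y - p + eV 0) - M (y - p)| ≤ ‖gradE M (y - p)‖ := by
    have := PiLp.norm_apply_le (gradE M (y - p)) 0
    rw [Real.norm_eq_abs] at this
    exact this
  have hsmall : (32 / (s : ℝ)) ^ (m + 3) ≤ 1 / (2 * (33 * (b : ℝ)) ^ (m + 3)) := by
    have hbR : (0 : ℝ) < b := by exact_mod_cast hb1
    have h3 : 32 / (s : ℝ) ≤ 1 / 2 * (1 / (33 * b)) := by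
      have h4 : ((2112 * b : ℕ) : ℝ) ≤ s := by
        have : 2112 * b ≤ s := by omega
        exact_mod_cast this
      push_cast at h4
      have h5 : (0 : ℝ) < s := lt_of_lt_of_le (by positivity) h4
      rw [one_div_mul_one_div, div_le_div_iff₀ h5 (by positivity)]
      linarith
    calc (32 / (s : ℝ)) ^ (m + 3) ≤ (1 / 2 * (1 / (33 * b))) ^ (m + 3) :=
          pow_le_pow_left₀ (by positivity) h3 _
      _ = (1 / 2) ^ (m + 3) * (1 / (33 * (b : ℝ)) ^ (m + 3)) := by
          rw [mul_pow, one_div_pow (33 * (b : ℝ))]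
      _ ≤ 1 / 2 * (1 / (33 * (b : ℝ)) ^ (m + 3)) := by
          refine mul_le_mul_of_nonneg_right ?_ (by positivity)
          calc ((1 : ℝ) / 2) ^ (m + 3) ≤ (1 / 2) ^ 1 :=
                pow_le_pow_of_le_one (by norm_num) (by norm_num) (by omega)
            _ = 1 / 2 := by norm_num
      _ = _ := by rw [one_div_mul_one_div]
  have hhalf : 1 / (33 * (b : ℝ)) ^ (m + 3) = 2 * (1 / (2 * (33 * (b : ℝ)) ^ (m + 3))) := by
    rw [← one_div_mul_one_div]; ring
  have h3 := abs_le.1 hgrad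
  linarith [h3.1]

end Pool.Agent.C29
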