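import Mathlib

/-!
C29: a convex body in dimension at least three for which the centered endpoint gradient bound
fails (helper files for MP_2332c1_an). Definitions.
-/

set_option autoImplicit false

open Finset

namespace Pool.Agent.C29

/-- lattice points in dimension `m + 3` -/
abbrev Pt (m : ℕ) := Fin (m + 3) → ℤ

/-- real points in dimension `m + 3` -/
abbrev RPt (m : ℕ) := Fin (m + 3) → ℝ

variable {m : ℕ}

/-- unit vectors -/
def eV (l : Fin (m + 3)) : Pt m := Pi.single l 1

/-- the linear functional with parameter `τ` -/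
def ell (τ : ℝ) (x : RPt m) : ℝ := (1 - τ ^ 2) * x 0 + 2 * τ * x 1

/-- the strength of the cuts with denominator `e` -/
def kap (e : ℕ) : ℝ := (e : ℝ) ^ 16

/-- a cut direction `c / e` -/
def IsCut (c e : ℕ) : Prop := Odd c ∧ Even e ∧ c < e

/-- `x` lies in the `r`-dilate of the body -/
def InK (r : ℝ) (x : RPt m) : Prop :=
  (∀ l, |x l| ≤ r) ∧ (∀ τ ∈ Set.Icc (0 : ℝ) 1, |ell τ x| ≤ r) ∧
  ∀ c e : ℕ, IsCut c e →
    x 2 ≤ kap e * (r - ell ((c : ℝ) / e) x) ∧ -x 2 ≤ kap e * (r + ell ((c : ℝ) / e) x)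

/-- the body -/
def KK (m : ℕ) : Set (RPt m) := {x | InK 1 x}

/-- `(b, t)` is a good direction -/
def Good (b t : ℕ) : Prop :=
  Odd t ∧ t < b ∧ ∀ c e : ℕ, IsCut c e → (b : ℤ) ≤ |(t : ℤ) * e - b * c| * (e : ℤ) ^ 7

/-- indicator function of a finite set of lattice points -/
noncomputable def ind (S : Finset (Pt m)) (x : Pt m) : ℝ := open Classical in if x ∈ S then 1 else 0

/-- the plateau `[0, A]^d` -/
noncomputable def plat (m A : ℕ) : Finset (Pt m) := Fintype.piFinset fun _ => Finset.Icc (0 : ℤ) A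

/-- the positions of the dipoles: the points `s k`, `k ∈ {1, …, n}^d` -/
noncomputable def dips (m s n : ℕ) : Finset (Pt m) :=
  (Fintype.piFinset fun _ => Finset.Icc (1 : ℤ) n).image fun k => (s : ℤ) • k

/-- the test function: plateau `+` dipoles -/
noncomputable def tf (m s n : ℕ) (x : Pt m) : ℝ :=
  ind (plat m (s * (n + 2))) x + ind (dips m s n) x - ind (dips m s n) (x - eV 2)

/-- discrete gradient -/
noncomputable def gradE (g : Pt m → ℝ) (x : Pt m) : EuclideanSpace ℝ (Fin (m + 3)) :=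
  WithLp.toLp 2 (fun i => g (x + Pi.single i 1) - g x)

end Pool.Agent.C29
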