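import Mathlib
import Pool.Agent.C29.Defs

/-!
C29 (MP_2332c1_an, centered operator, `β = 0`): counting the good directions `t / b`.
-/

namespace Pool.Agent.C29

/-- The `t < b` for which `t / b` is close to `c / e`. -/
def badSet (b c e : ℕ) : Finset ℕ :=
  (Finset.range b).filter (fun t => |(t:ℤ) * e - b * c| * (e:ℤ)^7 < b)

theorem bad_card (b c e : ℕ) (he : 0 < e) :
    ((badSet b c e).card : ℝ) ≤ 2 * b / (e:ℝ)^8 + 1 := by
  have heR : (0:ℝ) < e := by exact_mod_cast he
  rcases (badSet b c e).eq_empty_or_nonempty with h | h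
  · rw [h]; simp; positivity
  · set m := (badSet b c e).min' h with hm
    set M := (badSet b c e).max' h with hM
    have h1 : m ∈ badSet b c e := Finset.min'_mem _ h
    have h2 : M ∈ badSet b c e := Finset.max'_mem _ h
    have h3 : m ≤ M := Finset.min'_le _ _ h2
    have hsub : badSet b c e ⊆ Finset.Icc m M := by
      intro t ht
      rw [Finset.mem_Icc]
      exact ⟨Finset.min'_le _ _ ht, Finset.le_max' _ _ ht⟩
    have hc : (badSet b c e).card ≤ M + 1 - m := by
      calc (badSet b c e).card ≤ (Finset.Icc m M).card := Finset.card_le_card hsub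
        _ = M + 1 - m := by simp
    have k1 : |(m:ℤ) * e - b * c| * (e:ℤ)^7 < b := by
      have := h1; rw [badSet, Finset.mem_filter] at this; exact this.2
    have k2 : |(M:ℤ) * e - b * c| * (e:ℤ)^7 < b := by
      have := h2; rw [badSet, Finset.mem_filter] at this; exact this.2
    have he7 : (0:ℤ) < (e:ℤ)^7 := by positivity
    have k3 : ((M:ℤ) - m) * (e:ℤ)^8 < 2 * b := by
      have a1 : (M:ℤ) * e - b * c ≤ |(M:ℤ) * e - b * c| := le_abs_self _
      have a2 : -((m:ℤ) * e - b * c) ≤ |(m:ℤ) * e - b * c| := neg_le_abs _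
      have a3 : ((M:ℤ) - m) * (e:ℤ)^8 = (((M:ℤ) * e - b * c) + (-((m:ℤ) * e - b * c))) * (e:ℤ)^7 := by
        ring
      rw [a3]
      nlinarith [mul_le_mul_of_nonneg_right a1 he7.le, mul_le_mul_of_nonneg_right a2 he7.le]
    have k4 : ((M:ℝ) - m) * (e:ℝ)^8 ≤ 2 * b := by exact_mod_cast k3.le
    have k5 : (M:ℝ) - m ≤ 2 * b / (e:ℝ)^8 := by
      rw [le_div_iff₀ (by positivity)]; exact k4
    have k6 : ((badSet b c e).card : ℝ) ≤ (M:ℝ) + 1 - m := by
      have : ((badSet b c e).card : ℝ) ≤ ((M + 1 - m : ℕ) : ℝ) := by exact_mod_cast hc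
      rw [Nat.cast_sub (by omega)] at this
      push_cast at this
      exact this
    linarith

theorem sum_inv_sq (E : ℕ) : ∑ e ∈ Finset.Icc 2 (E+1), (1:ℝ) / (e:ℝ)^2 ≤ 1 - 1 / (E+1) := by
  induction E with
  | zero => simp
  | succ n ih =>
    rw [Finset.sum_Icc_succ_top (by omega)]
    have h1 : (0:ℝ) < (n:ℝ) + 1 := by positivity
    have h2 : (0:ℝ) < (n:ℝ) + 1 + 1 := by positivity
    have : (1:ℝ) / (((n + 1 + 1 : ℕ) : ℝ))^2 ≤ 1 / ((n:ℝ)+1) - 1 / ((n:ℝ)+1+1) := by
      push_cast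
      rw [div_sub_div _ _ h1.ne' h2.ne', div_le_div_iff₀ (by positivity) (by positivity)]
      nlinarith
    push_cast at *
    linarith

/-- the pairs `(c,e)` which matter -/
theorem not_good (b t : ℕ) (hb : Odd b) (ht : Odd t) (htb : t < b) (h : ¬ Good b t) :
    ∃ e ∈ (Finset.Icc 2 b).filter (fun e => e^7 < b), ∃ c ∈ Finset.range e, t ∈ badSet b c e := by
  have h' : ¬ ∀ c e : ℕ, IsCut c e → (b : ℤ) ≤ |(t : ℤ) * e - b * c| * (e : ℤ) ^ 7 :=
    fun hh => h ⟨ht, htb, hh⟩
  push Not at h'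
  obtain ⟨c, e, ⟨hc, he, hce⟩, hkey⟩ := h'
  have hb0 : 0 < b := hb.pos
  have he0 : 0 < e := by omega
  have hodd : Odd ((t:ℤ) * e - b * c) := by
    have h1 : Even ((t:ℤ) * e) := by
      have : Even (e:ℤ) := by exact_mod_cast he
      exact this.mul_left _
    have h2 : Odd ((b:ℤ) * c) := by
      have h3 : Odd (b:ℤ) := by exact_mod_cast hb
      have h4 : Odd (c:ℤ) := by exact_mod_cast hc
      exact h3.mul h4
    exact h1.sub_odd h2
  have habs : (1:ℤ) ≤ |(t:ℤ) * e - b * c| := by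
    apply Int.one_le_abs
    rintro h0
    rw [h0] at hodd
    exact absurd hodd (by decide)
  have he7 : (e:ℤ)^7 < b := by
    have : (e:ℤ)^7 ≤ |(t:ℤ) * e - b * c| * (e:ℤ)^7 := by
      nlinarith [pow_pos (by exact_mod_cast he0 : (0:ℤ) < e) 7]
    linarith
  have he7' : e^7 < b := by exact_mod_cast he7
  have hle : e ≤ e^7 := Nat.le_self_pow (by norm_num) e
  refine ⟨e, ?_, c, Finset.mem_range.mpr hce, ?_⟩
  · rw [Finset.mem_filter, Finset.mem_Icc]
    refine ⟨⟨?_, by omega⟩, he7'⟩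
    obtain ⟨k, hk⟩ := he
    omega
  · rw [badSet, Finset.mem_filter]
    exact ⟨Finset.mem_range.mpr htb, hkey⟩

theorem odd_count (b : ℕ) (hb : Odd b) :
    ((b:ℝ) - 1) / 2 ≤ (((Finset.range b).filter (fun t => Odd t)).card : ℝ) := by
  obtain ⟨k, hk⟩ := hb
  have h1 : (Finset.range k).image (fun i => 2 * i + 1) ⊆ (Finset.range b).filter (fun t => Odd t) := by
    intro t ht
    rw [Finset.mem_image] at ht
    obtain ⟨i, hi, rfl⟩ := ht
    rw [Finset.mem_range] at hi
    rw [Finset.mem_filter, Finset.mem_range]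
    exact ⟨by omega, ⟨i, rfl⟩⟩
  have h2 : ((Finset.range k).image (fun i => 2 * i + 1)).card = k := by
    rw [Finset.card_image_of_injective _ (fun a b h => by simp at h; exact h), Finset.card_range]
  have h3 := Finset.card_le_card h1
  rw [h2] at h3
  have h4 : (k:ℝ) ≤ (((Finset.range b).filter (fun t => Odd t)).card : ℝ) := by exact_mod_cast h3
  have h5 : (b:ℝ) = 2 * k + 1 := by rw [hk]; push_cast; ring
  rw [h5]; linarith

open Classical in
/-- At least `b/4 - 1` odd `t < b` are good. -/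
theorem good_count (b : ℕ) (hb : Odd b) :
    (b:ℝ)/4 - 1 ≤ (((Finset.range b).filter (fun t => Good b t)).card : ℝ) := by
  set G := (Finset.range b).filter (fun t => Good b t) with hG
  set O := (Finset.range b).filter (fun t => Odd t) with hO
  set Es := (Finset.Icc 2 b).filter (fun e => e^7 < b) with hEs
  set B := Es.biUnion (fun e => (Finset.range e).biUnion (fun c => badSet b c e)) with hB
  have hsub : O ⊆ G ∪ B := by
    intro t ht
    rw [hO, Finset.mem_filter, Finset.mem_range] at ht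
    rw [Finset.mem_union]
    by_cases hg : Good b t
    · left
      rw [hG, Finset.mem_filter, Finset.mem_range]
      exact ⟨ht.1, hg⟩
    · right
      obtain ⟨e, he, c, hc, hmem⟩ := not_good b t hb ht.2 ht.1 hg
      rw [hB, Finset.mem_biUnion]
      refine ⟨e, he, ?_⟩
      rw [Finset.mem_biUnion]
      exact ⟨c, hc, hmem⟩
  have hcard : (O.card : ℝ) ≤ G.card + B.card := by
    have := (Finset.card_le_card hsub).trans (Finset.card_union_le G B)
    exact_mod_cast this
  have hBcard : (B.card : ℝ) ≤ b / 8 := by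
    have h1 : B.card ≤ ∑ e ∈ Es, ∑ c ∈ Finset.range e, (badSet b c e).card := by
      rw [hB]
      refine Finset.card_biUnion_le.trans ?_
      exact Finset.sum_le_sum (fun e _ => Finset.card_biUnion_le)
    have h2 : (B.card : ℝ) ≤ ∑ e ∈ Es, ∑ c ∈ Finset.range e, ((badSet b c e).card : ℝ) := by
      exact_mod_cast h1
    have h3 : ∀ e ∈ Es, ∑ c ∈ Finset.range e, ((badSet b c e).card : ℝ) ≤ (b / 8 : ℝ) * (1 / (e:ℝ)^2) := by
      intro e he
      rw [hEs, Finset.mem_filter, Finset.mem_Icc] at he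
      have he0 : 0 < e := by omega
      have heR : (2:ℝ) ≤ e := by exact_mod_cast he.1.1
      have he7 : ((e:ℝ))^7 ≤ b := by exact_mod_cast he.2.le
      calc ∑ c ∈ Finset.range e, ((badSet b c e).card : ℝ)
          ≤ ∑ c ∈ Finset.range e, (2 * b / (e:ℝ)^8 + 1) :=
            Finset.sum_le_sum (fun c _ => bad_card b c e he0)
        _ = e * (2 * b / (e:ℝ)^8 + 1) := by rw [Finset.sum_const, Finset.card_range, nsmul_eq_mul]
        _ ≤ (b / 8 : ℝ) * (1 / (e:ℝ)^2) := by
          have hb1 : (1:ℝ) ≤ b / (e:ℝ)^7 := by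
            rw [le_div_iff₀ (by positivity)]; linarith
          have s1 : (e:ℝ) * (2 * b / (e:ℝ)^8 + 1) ≤ e * (2 * b / (e:ℝ)^8 + b / (e:ℝ)^7) := by
            apply mul_le_mul_of_nonneg_left _ (by positivity)
            linarith
          have s2 : (e:ℝ) * (2 * b / (e:ℝ)^8 + b / (e:ℝ)^7) = b * (2 + e) / (e:ℝ)^7 := by
            field_simp
          have s3 : b * (2 + (e:ℝ)) / (e:ℝ)^7 ≤ (b / 8 : ℝ) * (1 / (e:ℝ)^2) := by
            rw [div_le_iff₀ (by positivity)]
            have s4 : (b / 8 : ℝ) * (1 / (e:ℝ)^2) * (e:ℝ)^7 = b * ((e:ℝ)^5 / 8) := by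
              field_simp
            rw [s4]
            apply mul_le_mul_of_nonneg_left _ (by positivity)
            have s5 : (16:ℝ) ≤ (e:ℝ)^4 := by
              calc (16:ℝ) = 2^4 := by norm_num
                _ ≤ (e:ℝ)^4 := by gcongr
            nlinarith
          linarith
    have h4 : ∑ e ∈ Es, (b / 8 : ℝ) * (1 / (e:ℝ)^2) ≤ ∑ e ∈ Finset.Icc 2 b, (b / 8 : ℝ) * (1 / (e:ℝ)^2) := by
      apply Finset.sum_le_sum_of_subset_of_nonneg (Finset.filter_subset _ _)
      intro i _ _; positivity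
    have h5 : ∑ e ∈ Finset.Icc 2 b, (1:ℝ) / (e:ℝ)^2 ≤ 1 := by
      have hb0 := hb.pos
      obtain ⟨E, rfl⟩ : ∃ E, b = E + 1 := ⟨b - 1, by omega⟩
      have := sum_inv_sq E
      have h6 : (0:ℝ) ≤ 1 / ((E:ℝ)+1) := by positivity
      linarith
    calc (B.card : ℝ) ≤ ∑ e ∈ Es, (b / 8 : ℝ) * (1 / (e:ℝ)^2) := h2.trans (Finset.sum_le_sum h3)
      _ ≤ ∑ e ∈ Finset.Icc 2 b, (b / 8 : ℝ) * (1 / (e:ℝ)^2) := h4
      _ = (b / 8 : ℝ) * ∑ e ∈ Finset.Icc 2 b, (1:ℝ) / (e:ℝ)^2 := by rw [Finset.mul_sum]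
      _ ≤ (b / 8 : ℝ) * 1 := by apply mul_le_mul_of_nonneg_left h5 (by positivity)
      _ = b / 8 := by ring
  have hO' := odd_count b hb
  have hbR : (0:ℝ) ≤ b := by positivity
  linarith

end Pool.Agent.C29
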