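import Pool.Agent.C29.Defs

/-!
C29: the offsets.
-/

set_option autoImplicit false

open Finset

namespace Pool.Agent.C29

/-- the offsets `p = (b + 1, t, p₂, …)` with `t` good for `b` and `0 ≤ p_l < b` for `l ≥ 2` -/
noncomputable def Off (m b : ℕ) : Finset (Pt m) :=
  open Classical in
  Fintype.piFinset fun l => if l = 0 then {(b : ℤ) + 1} else
    if l = 1 then ((Finset.range b).filter (fun t => Good b t)).image (fun t : ℕ => (t : ℤ))
    else Finset.Ico 0 (b : ℤ)

end Pool.Agent.C29
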