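import Pool.Agent.C29.Defs

/-!
C29: the total variation of the test function (helper60).
-/

set_option autoImplicit false

open Finset

namespace Pool.Agent.C29

variable {m : ℕ}

lemma ind_nonneg (S : Finset (Pt m)) (x : Pt m) : 0 ≤ ind S x := by
  unfold ind; split_ifs <;> norm_num

lemma ind_of_mem {S : Finset (Pt m)} {x : Pt m} (h : x ∈ S) : ind S x = 1 := by
  unfold ind; rw [if_pos h]

lemma ind_of_notMem {S : Finset (Pt m)} {x : Pt m} (h : x ∉ S) : ind S x = 0 := by
  unfold ind; rw [if_neg h]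

/-- the boundary of `S` in direction `a` -/
noncomputable def bdr (S : Finset (Pt m)) (a : Pt m) : Finset (Pt m) := by
  classical exact S.filter fun x => x + a ∉ S

lemma mem_bdr {S : Finset (Pt m)} {a x : Pt m} : x ∈ bdr S a ↔ x ∈ S ∧ x + a ∉ S := by
  unfold bdr; rw [Finset.mem_filter]

lemma card_bdr_le (S : Finset (Pt m)) (a : Pt m) : (bdr S a).card ≤ S.card := by
  refine Finset.card_le_card fun x hx => (mem_bdr.1 hx).1

lemma sum_ind_le (S T : Finset (Pt m)) (a : Pt m) :
    ∑ x ∈ T, |ind S (x + a) - ind S x| ≤ ((bdr S a).card : ℝ) + (bdr S (-a)).card := by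
  classical
  have h1 : ∀ x, |ind S (x + a) - ind S x| ≤
      ind (bdr S a) x + ind (bdr S (-a)) (x + a) := by
    intro x
    by_cases h2 : x ∈ S <;> by_cases h3 : x + a ∈ S
    · rw [ind_of_mem h2, ind_of_mem h3, sub_self, abs_zero]
      exact add_nonneg (ind_nonneg _ _) (ind_nonneg _ _)
    · rw [ind_of_mem h2, ind_of_notMem h3, ind_of_mem (mem_bdr.2 ⟨h2, h3⟩)]
      have := ind_nonneg (bdr S (-a)) (x + a)
      norm_num
      exact this
    · rw [ind_of_notMem h2, ind_of_mem h3]
      have h4 : x + a ∈ bdr S (-a) := mem_bdr.2 ⟨h3, by rwa [add_neg_cancel_right]⟩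
      rw [ind_of_mem h4]
      have := ind_nonneg (bdr S a) x
      norm_num
      exact this
    · rw [ind_of_notMem h2, ind_of_notMem h3, sub_self, abs_zero]
      exact add_nonneg (ind_nonneg _ _) (ind_nonneg _ _)
  have h2 : ∀ (U T : Finset (Pt m)) (b : Pt m), ∑ x ∈ T, ind U (x + b) ≤ U.card := by
    intro U T b
    unfold ind
    rw [Finset.sum_boole]
    have h3 : (T.filter fun x => x + b ∈ U).card ≤ U.card := by
      refine Finset.card_le_card_of_injOn (fun x => x + b) (fun x hx => ?_)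
        (fun x _ y _ h => add_right_cancel h)
      exact (Finset.mem_filter.1 hx).2
    exact_mod_cast h3
  have h3 := h2 (bdr S a) T 0
  simp only [add_zero] at h3
  have h4 := h2 (bdr S (-a)) T a
  calc ∑ x ∈ T, |ind S (x + a) - ind S x|
      ≤ ∑ x ∈ T, (ind (bdr S a) x + ind (bdr S (-a)) (x + a)) :=
        Finset.sum_le_sum fun x _ => h1 x
    _ = ∑ x ∈ T, ind (bdr S a) x + ∑ x ∈ T, ind (bdr S (-a)) (x + a) :=
        Finset.sum_add_distrib
    _ ≤ _ := add_le_add h3 h4

lemma mem_plat {A : ℕ} {x : Pt m} : x ∈ plat m A ↔ ∀ l, 0 ≤ x l ∧ x l ≤ A := by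
  unfold plat
  simp only [Fintype.mem_piFinset, Finset.mem_Icc]

lemma card_face (A : ℕ) (l : Fin (m + 3)) (v : ℤ) :
    (Fintype.piFinset fun i : Fin (m + 3) => if i = l then ({v} : Finset ℤ)
      else Finset.Icc (0 : ℤ) A).card = (A + 1) ^ (m + 2) := by
  rw [Fintype.card_piFinset, Fin.prod_univ_succAbove _ l]
  rw [if_pos rfl, Finset.card_singleton, one_mul]
  have h1 : ∀ i : Fin (m + 2), (if l.succAbove i = l then ({v} : Finset ℤ)
      else Finset.Icc (0 : ℤ) A).card = A + 1 := by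
    intro i
    rw [if_neg (Fin.succAbove_ne l i), Int.card_Icc]
    omega
  rw [Finset.prod_congr rfl fun i _ => h1 i, Finset.prod_const, Finset.card_univ,
    Fintype.card_fin]

lemma card_bdr_plat (A : ℕ) (l : Fin (m + 3)) :
    (bdr (plat m A) (eV l)).card ≤ (A + 1) ^ (m + 2) := by
  rw [← card_face A l (A : ℤ)]
  refine Finset.card_le_card fun x hx => ?_
  obtain ⟨h1, h2⟩ := mem_bdr.1 hx
  rw [mem_plat] at h1 h2
  rw [Fintype.mem_piFinset]
  intro i
  by_cases hi : i = l
  · subst hi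
    rw [if_pos rfl, Finset.mem_singleton]
    by_contra h3
    refine h2 fun j => ?_
    have h4 := h1 j
    by_cases hj : j = i
    · subst hj
      have h5 : (x + eV j) j = x j + 1 := by simp [eV]
      rw [h5]
      omega
    · have h5 : (x + eV i) j = x j := by simp [eV, hj]
      rw [h5]
      exact h4
  · rw [if_neg hi, Finset.mem_Icc]
    exact h1 i

lemma card_bdr_plat' (A : ℕ) (l : Fin (m + 3)) :
    (bdr (plat m A) (-eV l)).card ≤ (A + 1) ^ (m + 2) := by
  rw [← card_face A l 0]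
  refine Finset.card_le_card fun x hx => ?_
  obtain ⟨h1, h2⟩ := mem_bdr.1 hx
  rw [mem_plat] at h1 h2
  rw [Fintype.mem_piFinset]
  intro i
  by_cases hi : i = l
  · subst hi
    rw [if_pos rfl, Finset.mem_singleton]
    by_contra h3
    refine h2 fun j => ?_
    have h4 := h1 j
    by_cases hj : j = i
    · subst hj
      have h5 : (x + -eV j) j = x j - 1 := by simp [eV, sub_eq_add_neg]
      rw [h5]
      omega
    · have h5 : (x + -eV i) j = x j := by simp [eV, hj]
      rw [h5]
      exact h4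
  · rw [if_neg hi, Finset.mem_Icc]
    exact h1 i

lemma card_dips {s n : ℕ} (hs : 1 ≤ s) : (dips m s n).card = n ^ (m + 3) := by
  unfold dips
  rw [Finset.card_image_of_injective, Fintype.card_piFinset]
  · simp
  · intro a b h
    funext i
    have h1 := congrFun h i
    simp only [Pi.smul_apply, smul_eq_mul] at h1
    exact mul_left_cancel₀ (by positivity) h1

lemma norm_gradE_le (g : Pt m → ℝ) (x : Pt m) :
    ‖gradE g x‖ ≤ ∑ l, |g (x + eV l) - g x| := by
  rw [EuclideanSpace.norm_eq]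
  refine Real.sqrt_le_iff.2 ⟨Finset.sum_nonneg fun _ _ => abs_nonneg _, ?_⟩
  have h1 : ∀ l, ‖(gradE g x) l‖ ^ 2 = |g (x + eV l) - g x| ^ 2 := fun l => rfl
  rw [Finset.sum_congr rfl fun l _ => h1 l]
  exact Finset.sum_sq_le_sq_sum_of_nonneg fun _ _ => abs_nonneg _

lemma tf_support (m s n : ℕ) : (Function.support (tf m s n)).Finite := by
  classical
  refine Set.Finite.subset (Finset.finite_toSet (plat m (s * (n + 2)) ∪ dips m s n ∪
    (dips m s n).image fun x => x + eV 2)) fun x hx => ?_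
  by_contra h1
  simp only [Finset.coe_union, Set.mem_union, Finset.mem_coe, not_or, Finset.mem_image,
    not_exists, not_and] at h1
  obtain ⟨⟨h2, h3⟩, h4⟩ := h1
  refine hx ?_
  unfold tf
  rw [ind_of_notMem h2, ind_of_notMem h3, ind_of_notMem (fun h5 => h4 _ h5 (by abel))]
  norm_num

lemma sum_tf_le (m s n : ℕ) (hs : 1 ≤ s) (T : Finset (Pt m)) :
    ∑ x ∈ T, ‖gradE (tf m s n) x‖ ≤
      2 * (m + 3) * ((s * (n + 2) + 1 : ℕ) : ℝ) ^ (m + 2) + 4 * (m + 3) * (n : ℝ) ^ (m + 3) := by
  classical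
  have hd : ((dips m s n).card : ℝ) = (n : ℝ) ^ (m + 3) := by
    rw [card_dips hs]; push_cast; rfl
  have key : ∀ l : Fin (m + 3), ∑ x ∈ T, |tf m s n (x + eV l) - tf m s n x| ≤
      2 * ((s * (n + 2) + 1 : ℕ) : ℝ) ^ (m + 2) + 4 * (n : ℝ) ^ (m + 3) := by
    intro l
    have h1 : ∀ x, |tf m s n (x + eV l) - tf m s n x| ≤
        |ind (plat m (s * (n + 2))) (x + eV l) - ind (plat m (s * (n + 2))) x| +
        |ind (dips m s n) (x + eV l) - ind (dips m s n) x| +
        |ind (dips m s n) (x - eV 2 + eV l) - ind (dips m s n) (x - eV 2)| := by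
      intro x
      have h2 : tf m s n (x + eV l) - tf m s n x =
          (ind (plat m (s * (n + 2))) (x + eV l) - ind (plat m (s * (n + 2))) x) +
          (ind (dips m s n) (x + eV l) - ind (dips m s n) x) -
          (ind (dips m s n) (x - eV 2 + eV l) - ind (dips m s n) (x - eV 2)) := by
        unfold tf
        rw [show x + eV l - eV 2 = x - eV 2 + eV l by abel]
        ring
      rw [h2]
      refine (abs_sub _ _).trans ?_
      exact add_le_add_left (abs_add_le _ _) _
    have h3 := sum_ind_le (plat m (s * (n + 2))) T (eV l)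
    have h4 := sum_ind_le (dips m s n) T (eV l)
    have h5 := sum_ind_le (dips m s n) (T.image fun x => x - eV 2) (eV l)
    rw [Finset.sum_image (fun x _ y _ h => sub_left_injective h)] at h5
    have c1 : ((bdr (plat m (s * (n + 2))) (eV l)).card : ℝ) ≤
        ((s * (n + 2) + 1 : ℕ) : ℝ) ^ (m + 2) := by
      exact_mod_cast card_bdr_plat (m := m) (s * (n + 2)) l
    have c2 : ((bdr (plat m (s * (n + 2))) (-eV l)).card : ℝ) ≤
        ((s * (n + 2) + 1 : ℕ) : ℝ) ^ (m + 2) := by
      exact_mod_cast card_bdr_plat' (m := m) (s * (n + 2)) l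
    have c3 : ((bdr (dips m s n) (eV l)).card : ℝ) ≤ (n : ℝ) ^ (m + 3) := by
      rw [← hd]; exact_mod_cast card_bdr_le _ _
    have c4 : ((bdr (dips m s n) (-eV l)).card : ℝ) ≤ (n : ℝ) ^ (m + 3) := by
      rw [← hd]; exact_mod_cast card_bdr_le _ _
    calc ∑ x ∈ T, |tf m s n (x + eV l) - tf m s n x|
        ≤ ∑ x ∈ T, (|ind (plat m (s * (n + 2))) (x + eV l) - ind (plat m (s * (n + 2))) x| +
          |ind (dips m s n) (x + eV l) - ind (dips m s n) x| +
          |ind (dips m s n) (x - eV 2 + eV l) - ind (dips m s n) (x - eV 2)|) :=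
          Finset.sum_le_sum fun x _ => h1 x
      _ = ∑ x ∈ T, |ind (plat m (s * (n + 2))) (x + eV l) - ind (plat m (s * (n + 2))) x| +
          ∑ x ∈ T, |ind (dips m s n) (x + eV l) - ind (dips m s n) x| +
          ∑ x ∈ T, |ind (dips m s n) (x - eV 2 + eV l) - ind (dips m s n) (x - eV 2)| := by
          rw [Finset.sum_add_distrib, Finset.sum_add_distrib]
      _ ≤ _ := by linarith
  calc ∑ x ∈ T, ‖gradE (tf m s n) x‖
      ≤ ∑ x ∈ T, ∑ l, |tf m s n (x + eV l) - tf m s n x| :=
        Finset.sum_le_sum fun x _ => norm_gradE_le _ x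
    _ = ∑ l, ∑ x ∈ T, |tf m s n (x + eV l) - tf m s n x| := Finset.sum_comm
    _ ≤ ∑ _l : Fin (m + 3), (2 * ((s * (n + 2) + 1 : ℕ) : ℝ) ^ (m + 2) +
          4 * (n : ℝ) ^ (m + 3)) := Finset.sum_le_sum fun l _ => key l
    _ = _ := by
        rw [Finset.sum_const, Finset.card_univ, Fintype.card_fin, nsmul_eq_mul]
        push_cast
        ring

/-- the total variation of the test function -/
theorem var_tf (m s n : ℕ) (hs : 1 ≤ s) : (Summable fun x => ‖gradE (tf m s n) x‖) ∧
    ∑' x, ‖gradE (tf m s n) x‖ ≤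
      2 * (m + 3) * ((s * (n + 2) + 1 : ℕ) : ℝ) ^ (m + 2) + 4 * (m + 3) * (n : ℝ) ^ (m + 3) := by
  have h1 : Summable fun x => ‖gradE (tf m s n) x‖ :=
    summable_of_sum_le (fun x => norm_nonneg _) (fun T => sum_tf_le m s n hs T)
  exact ⟨h1, h1.tsum_le_of_sum_le fun T => sum_tf_le m s n hs T⟩

end Pool.Agent.C29
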