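import Pool.Agent.C29.Body
import Pool.Agent.C29.Off
import Pool.Agent.C29.Var

/-!
C29: the lower bound for the maximal function at the points `y - p`.
-/

set_option autoImplicit false

open Finset
open Pool.Agent.Lib.H58FracMax

namespace Pool.Agent.C29

variable {m : ℕ}

/-- membership in the lattice points of a translate-dilate -/
lemma mem_LS_KK {z y : Pt m} {r : ℝ} (hr : 0 ≤ r) :
    y ∈ LS (KK m) (toR z) r ↔ InK r (toR (y - z)) := by
  constructor
  · rintro ⟨w, hw, h⟩
    have h1 : toR (y - z) = r • w := by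
      rw [toR_sub, h]; abel
    rw [h1]
    have := InK.smul (show InK 1 w from hw) hr
    rwa [mul_one] at this
  · intro h
    rcases hr.eq_or_lt with h0 | hpos
    · refine ⟨0, body_KK.zero_mem, ?_⟩
      rw [smul_zero, add_zero]
      funext l
      have h1 := h.1 l
      rw [← h0] at h1
      have h2 : toR (y - z) l = 0 := abs_eq_zero.1 (le_antisymm h1 (abs_nonneg _))
      rw [toR_sub, Pi.sub_apply] at h2
      linarith
    · refine ⟨r⁻¹ • toR (y - z), ?_, ?_⟩
      · have := h.smul (inv_nonneg.2 hr)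
        rw [inv_mul_cancel₀ hpos.ne'] at this
        exact this
      · rw [smul_smul, mul_inv_cancel₀ hpos.ne', one_smul, toR_sub]
        abel

lemma mem_dips {s n : ℕ} {y : Pt m} :
    y ∈ dips m s n ↔ ∃ k : Pt m, (∀ l, 1 ≤ k l ∧ k l ≤ n) ∧ (s : ℤ) • k = y := by
  unfold dips
  simp only [Finset.mem_image, Fintype.mem_piFinset, Finset.mem_Icc]

/-- two dipole positions at distance less than `s` are equal -/
lemma dips_eq {s n : ℕ} {y y' : Pt m} (hy : y ∈ dips m s n) (hy' : y' ∈ dips m s n)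
    (h : ∀ l, |y' l - y l| < s) : y' = y := by
  obtain ⟨k, _, rfl⟩ := mem_dips.1 hy
  obtain ⟨k', _, rfl⟩ := mem_dips.1 hy'
  have h1 : k' = k := by
    funext l
    have h2 := h l
    simp only [Pi.smul_apply, smul_eq_mul] at h2
    rw [← mul_sub, abs_mul, abs_of_nonneg (by positivity : (0 : ℤ) ≤ (s : ℤ))] at h2
    by_contra hne
    have h3 : 1 ≤ |k' l - k l| := Int.one_le_abs (sub_ne_zero.2 hne)
    have h4 : (s : ℤ) * 1 ≤ s * |k' l - k l| := mul_le_mul_of_nonneg_left h3 (by positivity)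
    linarith
  rw [h1]

/-- a point at distance at most `s` of a dipole position is in the plateau -/
lemma mem_plat_of_near {s n : ℕ} {y x : Pt m} (hy : y ∈ dips m s n) (h : ∀ l, |x l - y l| ≤ s) :
    x ∈ plat m (s * (n + 2)) := by
  obtain ⟨k, hk, rfl⟩ := mem_dips.1 hy
  rw [mem_plat]
  intro l
  obtain ⟨h1, h2⟩ := hk l
  have h3 := abs_le.1 (h l)
  simp only [Pi.smul_apply, smul_eq_mul] at h3
  have hs : (0 : ℤ) ≤ s := by positivity
  have h4 : (s : ℤ) * 1 ≤ s * k l := mul_le_mul_of_nonneg_left h1 hs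
  have h5 : (s : ℤ) * k l ≤ s * n := mul_le_mul_of_nonneg_left h2 hs
  push_cast
  constructor
  · linarith
  · nlinarith

lemma abs_eV_le (j l : Fin (m + 3)) : |(eV j : Pt m) l| ≤ 1 := by
  by_cases h : l = j
  · rw [h, eV_same]; norm_num
  · rw [eV_ne h]; norm_num

/-- the test function is nonnegative -/
lemma tf_nonneg {s n : ℕ} (hs : 1 ≤ s) (x : Pt m) : 0 ≤ tf m s n x := by
  unfold tf
  have h1 := ind_nonneg (plat m (s * (n + 2))) x
  have h2 := ind_nonneg (dips m s n) x
  by_cases h : x - eV 2 ∈ dips m s n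
  · have h3 : x ∈ plat m (s * (n + 2)) := by
      refine mem_plat_of_near h fun l => ?_
      rw [Pi.sub_apply, sub_sub_cancel]
      exact (abs_eV_le 2 l).trans (by exact_mod_cast hs)
    rw [ind_of_mem h3, ind_of_mem h]
    linarith
  · rw [ind_of_notMem h]
    linarith

lemma Off_props {b : ℕ} {p : Pt m} (hp : p ∈ Off m b) :
    p 0 = b + 1 ∧ (∃ t : ℕ, Good b t ∧ p 1 = t) ∧ ∀ l, l ≠ 0 → l ≠ 1 → 0 ≤ p l ∧ p l < b := by
  classical
  unfold Off at hp
  rw [Fintype.mem_piFinset] at hp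
  refine ⟨?_, ?_, ?_⟩
  · have := hp 0
    rw [if_pos rfl, Finset.mem_singleton] at this
    exact this
  · have := hp 1
    rw [if_neg ne01.symm, if_pos rfl, Finset.mem_image] at this
    obtain ⟨t, ht, h⟩ := this
    rw [Finset.mem_filter] at ht
    exact ⟨t, ht.2, h.symm⟩
  · intro l h0 h1
    have := hp l
    rw [if_neg h0, if_neg h1, Finset.mem_Ico] at this
    exact this

lemma Off_abs {b : ℕ} {p : Pt m} (hp : p ∈ Off m b) (l : Fin (m + 3)) : |p l| ≤ b + 1 := by
  obtain ⟨h0, ⟨t, ht, h1⟩, h2⟩ := Off_props hp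
  by_cases hl0 : l = 0
  · rw [hl0, h0, abs_of_nonneg (by positivity)]
  · by_cases hl1 : l = 1
    · have h3 : (t : ℤ) < b := by exact_mod_cast ht.2.1
      rw [hl1, h1, abs_of_nonneg (by positivity)]
      linarith
    · obtain ⟨h3, h4⟩ := h2 l hl0 hl1
      rw [abs_of_nonneg h3]
      linarith

/-- **lower bound** -/
theorem lower {s n b : ℕ} (hb : Odd b) (hs : 17 * b + 3 ≤ s) {y p : Pt m}
    (hy : y ∈ dips m s n) (hp : p ∈ Off m b) :
    ∃ r : ℝ, 0 ≤ r ∧ ∃ B : Finset (Pt m), (↑B : Set (Pt m)) = LS (KK m) (toR (y - p)) r ∧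
      0 < B.card ∧ (B.card : ℝ) * (1 + 1 / (33 * (b : ℝ)) ^ (m + 3)) ≤ ∑ x ∈ B, tf m s n x := by
  classical
  obtain ⟨h0, ⟨t, ht, h1⟩, h2⟩ := Off_props hp
  have hpabs := Off_abs hp
  have hp2 : 0 ≤ p 2 := (h2 2 ne02.symm ne12.symm).1
  obtain ⟨r, hr, hrb, hin, hout⟩ := cut_dir hb ht.1 ht.2.1.le h0 h1 hp2 hpabs
  refine ⟨r, hr, body_KK.L (toR (y - p)) hr, body_KK.coe_L _ hr, ?_⟩
  set B := body_KK.L (toR (y - p)) hr with hB
  have hmem : ∀ x, x ∈ B ↔ InK r (toR (x - (y - p))) := by
    intro x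
    rw [← mem_LS_KK hr, ← body_KK.coe_L _ hr, Finset.mem_coe]
  have hb1 : 1 ≤ b := hb.pos
  have hyB : y ∈ B := by
    rw [hmem, sub_sub_cancel]
    exact hin
  have hy2B : y + eV 2 ∉ B := by
    rw [hmem]
    have : y + eV 2 - (y - p) = p + eV 2 := by abel
    rw [this]
    exact hout
  have hnear : ∀ x ∈ B, ∀ l, |x l - (y l - p l)| ≤ 16 * b := by
    intro x hx l
    have h3 := ((hmem x).1 hx).1 l
    have h4 : (|x l - (y l - p l)| : ℝ) ≤ (16 * b : ℕ) := by
      have h5 : toR (x - (y - p)) l = (x l : ℝ) - (y l - p l) := by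
        simp [toR]
      rw [h5] at h3
      push_cast
      linarith
    exact_mod_cast h4
  have hnear' : ∀ x ∈ B, ∀ l, |x l - y l| ≤ 17 * b + 1 := by
    intro x hx l
    have h3 := abs_le.1 (hnear x hx l)
    have h4 := abs_le.1 (hpabs l)
    rw [abs_le]
    constructor <;> linarith
  have hs' : (17 * b + 3 : ℤ) ≤ s := by exact_mod_cast hs
  have hval : ∀ x ∈ B, tf m s n x = 1 + if x = y then 1 else 0 := by
    intro x hx
    unfold tf
    have e1 : x ∈ plat m (s * (n + 2)) :=
      mem_plat_of_near hy fun l => (hnear' x hx l).trans (by linarith)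
    have e2 : x - eV 2 ∉ dips m s n := by
      intro hcon
      have h3 : x - eV 2 = y := by
        refine dips_eq hy hcon fun l => ?_
        have h4 := abs_le.1 (hnear' x hx l)
        have h5 := abs_le.1 (abs_eV_le (m := m) 2 l)
        rw [Pi.sub_apply, abs_lt]
        constructor <;> linarith
      apply hy2B
      rw [← h3, sub_add_cancel]
      exact hx
    have e3 : ind (dips m s n) x = if x = y then 1 else 0 := by
      split_ifs with h3
      · rw [h3, ind_of_mem hy]
      · refine ind_of_notMem fun hcon => h3 ?_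
        exact dips_eq hy hcon fun l => (hnear' x hx l).trans_lt (by linarith)
    rw [ind_of_mem e1, ind_of_notMem e2, e3, sub_zero]
  have hsum : ∑ x ∈ B, tf m s n x = B.card + 1 := by
    rw [Finset.sum_congr rfl hval, Finset.sum_add_distrib, Finset.sum_const, nsmul_eq_mul,
      mul_one, Finset.sum_ite_eq' B y, if_pos hyB]
  have hcard : B.card ≤ (33 * b) ^ (m + 3) := by
    have hsub : B ⊆ Fintype.piFinset
        (fun l => Finset.Icc ((y l - p l) - 16 * (b : ℤ)) ((y l - p l) + 16 * b)) := by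
      intro x hx
      rw [Fintype.mem_piFinset]
      intro l
      have := abs_le.1 (hnear x hx l)
      rw [Finset.mem_Icc]
      constructor <;> linarith
    refine (Finset.card_le_card hsub).trans ?_
    rw [Fintype.card_piFinset]
    simp only [Int.card_Icc]
    have h3 : ∀ l : Fin (m + 3), (y l - p l + 16 * (b : ℤ) + 1 - (y l - p l - 16 * (b : ℤ))).toNat
        = 32 * b + 1 := by
      intro l
      have : y l - p l + 16 * (b : ℤ) + 1 - (y l - p l - 16 * (b : ℤ)) = ((32 * b + 1 : ℕ) : ℤ) := by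
        push_cast; ring
      rw [this, Int.toNat_natCast]
    simp only [h3, Finset.prod_const, Finset.card_univ, Fintype.card_fin]
    exact Nat.pow_le_pow_left (by omega) _
  have hpos : 0 < B.card := Finset.card_pos.2 ⟨y, hyB⟩
  refine ⟨hpos, ?_⟩
  rw [hsum]
  have hcard' : (B.card : ℝ) ≤ (33 * (b : ℝ)) ^ (m + 3) := by exact_mod_cast hcard
  have hbpos : (0 : ℝ) < (33 * (b : ℝ)) ^ (m + 3) := by
    have : (0 : ℝ) < b := by exact_mod_cast hb1
    positivity
  rw [mul_add, mul_one, mul_one_div]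
  have : (B.card : ℝ) / (33 * (b : ℝ)) ^ (m + 3) ≤ 1 := by
    rw [div_le_one hbpos]; exact hcard'
  linarith

end Pool.Agent.C29
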