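import Pool.Agent.C29.Off
import Pool.Agent.C29.Count
import Pool.Agent.C29.Var

/-!
C29: the final summation.
-/

set_option autoImplicit false

open Finset

namespace Pool.Agent.C29

lemma off_bounds {m b : ℕ} {p : Pt m} (hp : p ∈ Off m b) :
    p 0 = (b : ℤ) + 1 ∧ ∀ l, 0 ≤ p l ∧ p l ≤ (b : ℤ) + 1 := by
  classical
  unfold Off at hp
  rw [Fintype.mem_piFinset] at hp
  have h0 : p 0 = (b : ℤ) + 1 := by
    have h := hp 0
    simpa using h
  refine ⟨h0, fun l => ?_⟩
  by_cases hl : l = 0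
  · subst hl
    rw [h0]
    constructor
    · positivity
    · exact le_refl _
  · have h := hp l
    rw [if_neg hl] at h
    by_cases hl1 : l = 1
    · rw [if_pos hl1, Finset.mem_image] at h
      obtain ⟨t, ht, h2⟩ := h
      rw [Finset.mem_filter, Finset.mem_range] at ht
      have := ht.1
      rw [← h2]
      constructor <;> omega
    · rw [if_neg hl1, Finset.mem_Ico] at h
      constructor <;> omega

lemma off_card (m b : ℕ) (hb : Odd b) :
    ((b : ℝ) / 4 - 1) * (b : ℝ) ^ (m + 1) ≤ ((Off m b).card : ℝ) := by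
  classical
  have h1 := good_count b hb
  have h2 : (Off m b).card = ((Finset.range b).filter (fun t => Good b t)).card * b ^ (m + 1) := by
    unfold Off
    rw [Fintype.card_piFinset, Fin.prod_univ_succ, Fin.prod_univ_succ]
    have e1 : ((Fin.succ (0 : Fin (m + 2))) : Fin (m + 3)) = 1 := rfl
    rw [if_pos rfl, Finset.card_singleton, one_mul, e1, if_neg (by simp), if_pos rfl,
      Finset.card_image_of_injective _ (fun a b h => by exact_mod_cast h)]
    congr 1
    have h3 : ∀ l : Fin (m + 1), (if (Fin.succ (Fin.succ l) : Fin (m + 3)) = 0 then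
        ({(b : ℤ) + 1} : Finset ℤ) else if (Fin.succ (Fin.succ l) : Fin (m + 3)) = 1 then
        ((Finset.range b).filter (fun t => Good b t)).image (fun t : ℕ => (t : ℤ))
        else Finset.Ico 0 (b : ℤ)).card = b := by
      intro l
      have e2 : (Fin.succ (Fin.succ l) : Fin (m + 3)) ≠ 0 := Fin.succ_ne_zero _
      have e3 : (Fin.succ (Fin.succ l) : Fin (m + 3)) ≠ 1 := by
        rw [← e1]
        intro h
        exact Fin.succ_ne_zero l (Fin.succ_injective _ h)
      rw [if_neg e2, if_neg e3]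
      simp
    rw [Finset.prod_congr rfl (fun l _ => h3 l)]
    simp
  rw [h2]
  push_cast
  exact mul_le_mul_of_nonneg_right h1 (by positivity)

/-- **The final summation.** -/
theorem final_sum (m J n : ℕ) (g : Pt m → ℝ) (hg0 : ∀ z, 0 ≤ g z)
    (hg : ∀ b : ℕ, Odd b → b ≤ 2 * J + 1 → ∀ y ∈ dips m (2112 * (2 * J + 1)) n,
      ∀ p ∈ Off m b, 1 / (2 * (33 * (b : ℝ)) ^ (m + 3)) ≤ g (y - p)) :
    ∃ F : Finset (Pt m), (n : ℝ) ^ (m + 3) *
      (1 / (32 * 33 ^ (m + 3)) * ∑ j ∈ Finset.Ico 4 (J + 1), 1 / ((j : ℝ) + 1)) ≤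
      ∑ z ∈ F, g z := by
  classical
  set s : ℕ := 2112 * (2 * J + 1) with hs
  set I : Finset (Pt m × (Σ _ : ℕ, Pt m)) :=
    dips m s n ×ˢ (Finset.Ico 4 (J + 1)).sigma (fun j => Off m (2 * j + 1)) with hI
  have hinj : Set.InjOn (fun x : Pt m × (Σ _ : ℕ, Pt m) => x.1 - x.2.2) (I : Set _) := by
    rintro ⟨y, j, p⟩ hx ⟨y', j', p'⟩ hx' h
    simp only [hI, Finset.coe_product, Set.mem_prod, Finset.mem_coe, Finset.mem_sigma,
      Finset.mem_Ico] at hx hx'
    obtain ⟨hy, ⟨hj1, hj2⟩, hp⟩ := hx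
    obtain ⟨hy', ⟨hj1', hj2'⟩, hp'⟩ := hx'
    simp only at h hj1 hj2 hj1' hj2' hp hp'
    obtain ⟨hp0, hpl⟩ := off_bounds hp
    obtain ⟨hp0', hpl'⟩ := off_bounds hp'
    have hyy : y = y' := by
      unfold dips at hy hy'
      rw [Finset.mem_image] at hy hy'
      obtain ⟨k, _, rfl⟩ := hy
      obtain ⟨k', _, rfl⟩ := hy'
      have hk : k = k' := by
        funext l
        have h1 := congrFun h l
        simp only [Pi.sub_apply, Pi.smul_apply, smul_eq_mul] at h1
        have h2 := hpl l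
        have h3 := hpl' l
        push_cast at h2 h3
        by_contra hne
        have h4 : 1 ≤ |k l - k' l| := Int.one_le_abs (sub_ne_zero.mpr hne)
        have h5 : (s : ℤ) * (k l - k' l) = p l - p' l := by linarith
        have h6 : |(s : ℤ) * (k l - k' l)| ≤ 2 * J + 2 := by
          rw [h5, abs_le]
          have e1 : (j : ℤ) ≤ J := by exact_mod_cast (by omega : j ≤ J)
          have e2 : (j' : ℤ) ≤ J := by exact_mod_cast (by omega : j' ≤ J)
          constructor <;> linarith
        rw [abs_mul] at h6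
        have h7 : |(s : ℤ)| = 2112 * (2 * (J : ℤ) + 1) := by
          rw [abs_of_nonneg (by positivity), hs]
          push_cast
          ring
        rw [h7] at h6
        have h8 : (0 : ℤ) ≤ J := by positivity
        nlinarith
      rw [hk]
    subst hyy
    have hpp : p = p' := by
      have := h
      simpa using this
    subst hpp
    have hjj : j = j' := by
      rw [hp0] at hp0'
      push_cast at hp0'
      omega
    subst hjj
    rfl
  refine ⟨I.image (fun x => x.1 - x.2.2), ?_⟩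
  rw [Finset.sum_image (fun a ha b hb h => hinj ha hb h), hI, Finset.sum_product]
  have hcard : ((dips m s n).card : ℝ) = (n : ℝ) ^ (m + 3) := by
    rw [card_dips (m := m) (s := s) (n := n) (by omega)]
    push_cast
    ring
  have key : ∀ y ∈ dips m s n,
      1 / (32 * 33 ^ (m + 3)) * ∑ j ∈ Finset.Ico 4 (J + 1), 1 / ((j : ℝ) + 1) ≤
      ∑ x ∈ (Finset.Ico 4 (J + 1)).sigma (fun j => Off m (2 * j + 1)), g (y - x.2) := by
    intro y hy
    rw [Finset.sum_sigma, Finset.mul_sum]
    refine Finset.sum_le_sum fun j hj => ?_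
    rw [Finset.mem_Ico] at hj
    have h1 : ∑ p ∈ Off m (2 * j + 1), (1 / (2 * (33 * ((2 * j + 1 : ℕ) : ℝ)) ^ (m + 3))) ≤
        ∑ p ∈ Off m (2 * j + 1), g (y - p) :=
      Finset.sum_le_sum fun p hp => hg (2 * j + 1) ⟨j, rfl⟩ (by omega) y hy p hp
    refine le_trans ?_ h1
    rw [Finset.sum_const, nsmul_eq_mul]
    have h2 := off_card m (2 * j + 1) ⟨j, rfl⟩
    have hj4 : (4 : ℝ) ≤ j := by exact_mod_cast hj.1
    set B : ℝ := ((2 * j + 1 : ℕ) : ℝ) with hB
    have hBj : B = 2 * j + 1 := by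
      rw [hB]
      push_cast
      ring
    have hB9 : 9 ≤ B := by rw [hBj]; linarith
    have hB0 : 0 < B := by linarith
    have h3 : B / 8 * B ^ (m + 1) ≤ ((Off m (2 * j + 1)).card : ℝ) :=
      le_trans (mul_le_mul_of_nonneg_right (by linarith) (by positivity)) h2
    have h4 : (B / 8 * B ^ (m + 1)) * (1 / (2 * (33 * B) ^ (m + 3))) ≤
        ((Off m (2 * j + 1)).card : ℝ) * (1 / (2 * (33 * B) ^ (m + 3))) :=
      mul_le_mul_of_nonneg_right h3 (by positivity)
    refine le_trans ?_ h4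
    have h5 : (B / 8 * B ^ (m + 1)) * (1 / (2 * (33 * B) ^ (m + 3))) =
        1 / (16 * 33 ^ (m + 3)) * (1 / B) := by
      rw [mul_pow]
      field_simp
      ring
    have h6 : 1 / (32 * (33 : ℝ) ^ (m + 3)) * (1 / ((j : ℝ) + 1)) =
        1 / (16 * 33 ^ (m + 3)) * (1 / (2 * ((j : ℝ) + 1))) := by
      field_simp
      ring
    rw [h5, h6]
    refine mul_le_mul_of_nonneg_left ?_ (by positivity)
    exact one_div_le_one_div_of_le hB0 (by rw [hBj]; linarith)
  calc (n : ℝ) ^ (m + 3) *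
      (1 / (32 * 33 ^ (m + 3)) * ∑ j ∈ Finset.Ico 4 (J + 1), 1 / ((j : ℝ) + 1))
      = ∑ y ∈ dips m s n,
        (1 / (32 * 33 ^ (m + 3)) * ∑ j ∈ Finset.Ico 4 (J + 1), 1 / ((j : ℝ) + 1)) := by
        rw [Finset.sum_const, nsmul_eq_mul, hcard]
    _ ≤ _ := Finset.sum_le_sum key

end Pool.Agent.C29
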