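import Pool.Agent.C29.Bridge
import Pool.Agent.C29.Summing

/-!
C29: the ratio of the variations is unbounded.
-/

set_option autoImplicit false

open Finset
open Pool.Agent.Lib.H58FracMax

namespace Pool.Agent.C29

variable {m : ℕ}

lemma harmonic_large (A : ℝ) : ∃ J : ℕ, A < ∑ j ∈ Finset.Ico 4 (J + 1), 1 / ((j : ℝ) + 1) := by
  have h1 := Real.tendsto_sum_range_one_div_nat_succ_atTop
  rw [Filter.tendsto_atTop] at h1
  have h2 := h1 (A + 1 + ∑ j ∈ Finset.range 4, 1 / ((j : ℝ) + 1))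
  rw [Filter.eventually_atTop] at h2
  obtain ⟨N, hN⟩ := h2
  refine ⟨N + 4, ?_⟩
  have h3 := hN (N + 4 + 1) (by omega)
  rw [Finset.sum_Ico_eq_sub _ (by omega : 4 ≤ N + 4 + 1)]
  linarith

lemma pow_bound {s : ℕ} (hs : 1 ≤ s) (m : ℕ) :
    (s * ((4 * s) ^ (m + 2) + 2) + 1) ^ (m + 2) ≤ ((4 * s) ^ (m + 2)) ^ (m + 3) := by
  have hn1 : 1 ≤ (4 * s) ^ (m + 2) := Nat.one_le_pow _ _ (by omega)
  generalize hn : (4 * s) ^ (m + 2) = n at *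
  have h1 : s * (n + 2) + 1 ≤ 4 * s * n := by
    nlinarith [Nat.mul_le_mul hs hn1]
  calc (s * (n + 2) + 1) ^ (m + 2) ≤ (4 * s * n) ^ (m + 2) := Nat.pow_le_pow_left h1 _
    _ = (4 * s) ^ (m + 2) * n ^ (m + 2) := mul_pow _ _ _
    _ = n * n ^ (m + 2) := by rw [hn]
    _ = n ^ (m + 3) := by rw [pow_succ' n (m + 2)]

/-- **the ratio of the variations is unbounded** -/
theorem unbounded (m : ℕ) (C : ℝ) : ∃ s n : ℕ, ∀ M : Pt m → ℝ,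
    (∀ z, IsLUB {a | ∃ B ∈ cen (KK m) z, a = avg 1 (fun x => |tf m s n x|) B} (M z)) →
    ∃ F : Finset (Pt m), C * ∑' x, ‖gradE (tf m s n) x‖ < ∑ z ∈ F, ‖gradE M z‖ := by
  set c : ℝ := 1 / (32 * 33 ^ (m + 3)) with hc
  have hcpos : 0 < c := by positivity
  obtain ⟨J, hJ⟩ := harmonic_large ((|C| * (6 * ((m : ℝ) + 3))) / c)
  set H : ℝ := ∑ j ∈ Finset.Ico 4 (J + 1), 1 / ((j : ℝ) + 1) with hH
  rw [div_lt_iff₀ hcpos] at hJ
  set s : ℕ := 2112 * (2 * J + 1) with hs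
  have hs1 : 1 ≤ s := by omega
  set n : ℕ := (4 * s) ^ (m + 2) with hn
  have hn1 : 1 ≤ n := Nat.one_le_pow _ _ (by omega)
  refine ⟨s, n, fun M hM => ?_⟩
  obtain ⟨-, hvar⟩ := var_tf m s n hs1
  have hn3 : (0 : ℝ) < (n : ℝ) ^ (m + 3) := by
    have : (0 : ℝ) < n := by exact_mod_cast hn1
    positivity
  have hbd : ((s * (n + 2) + 1 : ℕ) : ℝ) ^ (m + 2) ≤ (n : ℝ) ^ (m + 3) := by
    have h2 := pow_bound hs1 m
    rw [← hn] at h2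
    exact_mod_cast h2
  have hvar' : ∑' x, ‖gradE (tf m s n) x‖ ≤ 6 * ((m : ℝ) + 3) * (n : ℝ) ^ (m + 3) := by
    have h3 : 2 * ((m : ℝ) + 3) * ((s * (n + 2) + 1 : ℕ) : ℝ) ^ (m + 2)
        ≤ 2 * ((m : ℝ) + 3) * (n : ℝ) ^ (m + 3) :=
      mul_le_mul_of_nonneg_left hbd (by positivity)
    linarith
  have htsum : 0 ≤ ∑' x, ‖gradE (tf m s n) x‖ := tsum_nonneg fun _ => norm_nonneg _
  obtain ⟨F, hF⟩ := final_sum m J n (fun z => ‖gradE M z‖) (fun _ => norm_nonneg _)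
    (fun b hb hbJ y hy p hp => key hb hbJ hy hp hM)
  refine ⟨F, ?_⟩
  calc C * ∑' x, ‖gradE (tf m s n) x‖ ≤ |C| * ∑' x, ‖gradE (tf m s n) x‖ :=
        mul_le_mul_of_nonneg_right (le_abs_self C) htsum
    _ ≤ |C| * (6 * ((m : ℝ) + 3) * (n : ℝ) ^ (m + 3)) :=
        mul_le_mul_of_nonneg_left hvar' (abs_nonneg C)
    _ = (n : ℝ) ^ (m + 3) * (|C| * (6 * ((m : ℝ) + 3))) := by ring
    _ < (n : ℝ) ^ (m + 3) * (H * c) := mul_lt_mul_of_pos_left hJ hn3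
    _ = (n : ℝ) ^ (m + 3) * (c * H) := by ring
    _ ≤ _ := hF

end Pool.Agent.C29
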